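import Mathlib

/-!
# Behrend's construction for the equation `a + b + c = 3 e`
-/

set_option autoImplicit false

namespace Pool.Agent.H24.RM

open Finset

lemma enc_lt {k b : ℕ} (x : Fin k → ℕ) (hx : ∀ i, x i < b) : Behrend.map b x < b ^ k := by
  induction k with
  | zero => simp [Behrend.map]
  | succ k ih =>
    have h1 := ih (fun i => x i.castSucc) (fun i => hx _)
    have h2 : Behrend.map b x = Behrend.map b (fun i => x i.castSucc) + x (Fin.last k) * b ^ k := by
      simp only [Behrend.map, AddMonoidHom.coe_mk, ZeroHom.coe_mk]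
      rw [Fin.sum_univ_castSucc]
      simp
    rw [h2]
    have h3 := hx (Fin.last k)
    calc Behrend.map b (fun i => x i.castSucc) + x (Fin.last k) * b ^ k
        < b ^ k + x (Fin.last k) * b ^ k := by omega
      _ = (x (Fin.last k) + 1) * b ^ k := by ring
      _ ≤ b * b ^ k := Nat.mul_le_mul_right _ h3
      _ = b ^ (k + 1) := by ring

lemma convex4 {k r : ℕ} (x y z u : Fin k → ℕ) (hx : ∑ i, x i ^ 2 = r) (hy : ∑ i, y i ^ 2 = r)
    (hz : ∑ i, z i ^ 2 = r) (hu : ∑ i, u i ^ 2 = r) (h : ∀ i, x i + y i + z i = 3 * u i) :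
    x = u ∧ y = u ∧ z = u := by
  have hx' : ∑ i, (x i : ℤ) ^ 2 = r := by exact_mod_cast hx
  have hy' : ∑ i, (y i : ℤ) ^ 2 = r := by exact_mod_cast hy
  have hz' : ∑ i, (z i : ℤ) ^ 2 = r := by exact_mod_cast hz
  have hu' : ∑ i, (u i : ℤ) ^ 2 = r := by exact_mod_cast hu
  have h' : ∀ i, (x i : ℤ) + y i + z i = 3 * u i := fun i => by exact_mod_cast h i
  have key : ∑ i, (((x i : ℤ) - u i) ^ 2 + ((y i : ℤ) - u i) ^ 2 + ((z i : ℤ) - u i) ^ 2) = 0 := by
    have e : ∀ i, ((x i : ℤ) - u i) ^ 2 + ((y i : ℤ) - u i) ^ 2 + ((z i : ℤ) - u i) ^ 2 =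
        (x i : ℤ) ^ 2 + (y i : ℤ) ^ 2 + (z i : ℤ) ^ 2 - 3 * (u i : ℤ) ^ 2 := by
      intro i
      have e1 : ((x i : ℤ) - u i) ^ 2 + ((y i : ℤ) - u i) ^ 2 + ((z i : ℤ) - u i) ^ 2 =
        (x i : ℤ) ^ 2 + (y i : ℤ) ^ 2 + (z i : ℤ) ^ 2 - 2 * u i * ((x i : ℤ) + y i + z i)
          + 3 * (u i : ℤ) ^ 2 := by ring
      rw [e1, h' i]
      ring
    rw [sum_congr rfl fun i _ => e i, sum_sub_distrib, sum_add_distrib, sum_add_distrib,
      ← mul_sum, hx', hy', hz', hu']
    ring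
  have h0 := (sum_eq_zero_iff_of_nonneg (fun i _ => by positivity)).1 key
  have h1 : ∀ i, x i = u i ∧ y i = u i ∧ z i = u i := by
    intro i
    have h2 := h0 i (mem_univ i)
    have a1 : 0 ≤ ((x i : ℤ) - u i) ^ 2 := by positivity
    have a2 : 0 ≤ ((y i : ℤ) - u i) ^ 2 := by positivity
    have a3 : 0 ≤ ((z i : ℤ) - u i) ^ 2 := by positivity
    have b1 : ((x i : ℤ) - u i) ^ 2 = 0 := by linarith
    have b2 : ((y i : ℤ) - u i) ^ 2 = 0 := by linarith
    have b3 : ((z i : ℤ) - u i) ^ 2 = 0 := by linarith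
    have c1 := pow_eq_zero_iff (two_ne_zero) |>.1 b1
    have c2 := pow_eq_zero_iff (two_ne_zero) |>.1 b2
    have c3 := pow_eq_zero_iff (two_ne_zero) |>.1 b3
    omega
  exact ⟨funext fun i => (h1 i).1, funext fun i => (h1 i).2.1, funext fun i => (h1 i).2.2⟩

/-- Behrend's construction -/
theorem exists_AP (k d : ℕ) (hd : 0 < d) : ∃ A : Finset ℕ, (∀ a ∈ A, a < (3 * d) ^ k) ∧
    d ^ k ≤ (k * d ^ 2 + 1) * A.card ∧ ∀ a ∈ A, ∀ b ∈ A, ∀ c ∈ A, ∀ e ∈ A,
      a + b + c = 3 * e → a = e ∧ b = e ∧ c = e := by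
  classical
  set box : Finset (Fin k → ℕ) := Fintype.piFinset (fun _ => range d) with hbox
  have hcard : box.card = d ^ k := by
    rw [hbox, Fintype.card_piFinset, prod_const, card_univ, Fintype.card_fin, card_range]
  have hmaps : ∀ x ∈ box, ∑ i, x i ^ 2 ∈ range (k * d ^ 2 + 1) := by
    intro x hx
    rw [hbox, Fintype.mem_piFinset] at hx
    rw [mem_range, Nat.lt_succ_iff]
    calc ∑ i, x i ^ 2 ≤ ∑ _i : Fin k, d ^ 2 :=
          sum_le_sum fun i _ => Nat.pow_le_pow_left (mem_range.1 (hx i)).le 2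
      _ = k * d ^ 2 := by rw [sum_const, card_univ, Fintype.card_fin, smul_eq_mul]
  obtain ⟨r, -, hr⟩ : ∃ r ∈ range (k * d ^ 2 + 1),
      d ^ k ≤ (k * d ^ 2 + 1) * (box.filter (fun x => ∑ i, x i ^ 2 = r)).card := by
    by_contra hcon
    push Not at hcon
    have h1 := card_eq_sum_card_fiberwise hmaps
    have h2 : (k * d ^ 2 + 1) * box.card < (k * d ^ 2 + 1) * d ^ k := by
      calc (k * d ^ 2 + 1) * box.card = ∑ r ∈ range (k * d ^ 2 + 1), (k * d ^ 2 + 1) *
            (box.filter (fun x => ∑ i, x i ^ 2 = r)).card := by rw [h1, mul_sum]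
        _ < ∑ _r ∈ range (k * d ^ 2 + 1), d ^ k :=
            sum_lt_sum_of_nonempty ⟨0, mem_range.2 (Nat.succ_pos _)⟩ fun r hr => hcon r hr
        _ = (k * d ^ 2 + 1) * d ^ k := by rw [sum_const, card_range, smul_eq_mul]
    rw [hcard] at h2
    exact lt_irrefl _ h2
  set S := box.filter (fun x => ∑ i, x i ^ 2 = r) with hS
  have hSm : ∀ x ∈ S, (∀ i, x i < d) ∧ ∑ i, x i ^ 2 = r := by
    intro x hx
    rw [hS, mem_filter, hbox, Fintype.mem_piFinset] at hx
    exact ⟨fun i => mem_range.1 (hx.1 i), hx.2⟩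
  have hinj := Behrend.map_injOn (n := k) (d := 3 * d)
  refine ⟨S.image (Behrend.map (3 * d)), ?_, ?_, ?_⟩
  · intro a ha
    obtain ⟨x, hx, rfl⟩ := mem_image.1 ha
    exact enc_lt x fun i => by have := (hSm x hx).1 i; omega
  · rw [card_image_of_injOn]
    · exact hr
    · intro x hx y hy hxy
      exact hinj (fun i => by have := (hSm x hx).1 i; omega)
        (fun i => by have := (hSm y hy).1 i; omega) hxy
  · intro a ha b hb c hc e he habc
    obtain ⟨x, hx, rfl⟩ := mem_image.1 ha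
    obtain ⟨y, hy, rfl⟩ := mem_image.1 hb
    obtain ⟨z, hz, rfl⟩ := mem_image.1 hc
    obtain ⟨u, hu, rfl⟩ := mem_image.1 he
    have h1 : Behrend.map (3 * d) (x + y + z) = Behrend.map (3 * d) (3 • u) := by
      rw [map_add, map_add, map_nsmul, smul_eq_mul]
      exact habc
    have h2 : x + y + z = 3 • u := by
      apply hinj _ _ h1
      · intro i
        have := (hSm x hx).1 i
        have := (hSm y hy).1 i
        have := (hSm z hz).1 i
        simp only [Pi.add_apply]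
        omega
      · intro i
        have := (hSm u hu).1 i
        simp only [Pi.smul_apply, smul_eq_mul]
        omega
    obtain ⟨e1, e2, e3⟩ := convex4 x y z u (hSm x hx).2 (hSm y hy).2 (hSm z hz).2 (hSm u hu).2
      (fun i => by have := congrFun h2 i; simpa using this)
    rw [e1, e2, e3]
    exact ⟨rfl, rfl, rfl⟩

end Pool.Agent.H24.RM
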