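import Mathlib

/-!
# Removal thresholds: definitions
-/

set_option autoImplicit false

namespace Pool.Agent.H24.RM

open Finset

/-- `f` is a labelled copy of `H` in `G`: an injective map sending edges to edges -/
def IsCopy {W V : Type} (H : SimpleGraph W) (G : SimpleGraph V) (f : W → V) : Prop :=
  Function.Injective f ∧ ∀ a b, H.Adj a b → G.Adj (f a) (f b)

/-- the copies `f` and `g` of `H` have no common edge -/
def EdgeDisjoint {W V : Type} (H : SimpleGraph W) (f g : W → V) : Prop :=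
  ∀ a b c d, H.Adj a b → H.Adj c d → s(f a, f b) ≠ s(g c, g d)

/-- every graph `G` with `n` vertices, minimum degree at least `γ n` and (at least) `ε n²` pairwise
edge-disjoint copies of `H` has at least `δ n ^ v(H)` copies of `H` -/
def Removal {W : Type} [Fintype W] (H : SimpleGraph W) (γ ε δ : ℝ) : Prop :=
  ∀ (V : Type) [Fintype V] (G : SimpleGraph V),
    (∀ v, γ * (Fintype.card V : ℝ) ≤ ((G.neighborSet v).ncard : ℝ)) →
    (∃ S : Finset (W → V), (∀ f ∈ S, IsCopy H G f) ∧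
      (∀ f ∈ S, ∀ g ∈ S, f ≠ g → EdgeDisjoint H f g) ∧
      ε * (Fintype.card V : ℝ) ^ 2 ≤ (S.card : ℝ)) →
    δ * (Fintype.card V : ℝ) ^ Fintype.card W ≤ ({f : W → V | IsCopy H G f}.ncard : ℝ)

/-- `δ(ε, H; γ)`: the largest `δ ∈ [0, 1]` with this property -/
noncomputable def delta {W : Type} [Fintype W] (H : SimpleGraph W) (γ ε : ℝ) : ℝ :=
  sSup {δ : ℝ | 0 ≤ δ ∧ δ ≤ 1 ∧ Removal H γ ε δ}

/-- the polynomial removal threshold: the infimum of the `γ ∈ [0, 1]` for which some `μ > 0` gives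
`δ(ε, H; γ) ≥ μ ε ^ (1 / μ)` for all `0 < ε ≤ 1` -/
noncomputable def polyThreshold {W : Type} [Fintype W] (H : SimpleGraph W) : ℝ :=
  sInf {γ : ℝ | 0 ≤ γ ∧ γ ≤ 1 ∧ ∃ μ : ℝ, 0 < μ ∧
    ∀ ε : ℝ, 0 < ε → ε ≤ 1 → μ * ε ^ (1 / μ) ≤ delta H γ ε}

/-- the blow-up of the 5-cycle with classes of size `3` -/
def C53 : SimpleGraph (Fin 5 × Fin 3) where
  Adj a b := b.1 = a.1 + 1 ∨ a.1 = b.1 + 1
  symm := by
    constructor
    intro a b h
    exact h.symm
  loopless := by
    constructor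
    intro a h
    have h1 : ∀ x : Fin 5, ¬ (x = x + 1 ∨ x = x + 1) := by decide
    exact h1 a.1 h

/-- the Möbius ladder with `12` vertices, which is the circular clique `K_{12/5}` -/
def M12 : SimpleGraph (Fin 12) where
  Adj a b := b = a + 1 ∨ a = b + 1 ∨ b = a + 6
  symm := by
    constructor
    intro a b h
    revert a b
    decide
  loopless := by
    constructor
    intro a h
    revert a
    decide

variable {W : Type} [Fintype W] (H : SimpleGraph W)

lemma removal_zero (γ ε : ℝ) : Removal H γ ε 0 := by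
  intro V _ G _ _
  rw [zero_mul]
  positivity

lemma delta_bdd (γ ε : ℝ) : BddAbove {δ : ℝ | 0 ≤ δ ∧ δ ≤ 1 ∧ Removal H γ ε δ} :=
  ⟨1, fun _ h => h.2.1⟩

lemma delta_nonempty (γ ε : ℝ) : {δ : ℝ | 0 ≤ δ ∧ δ ≤ 1 ∧ Removal H γ ε δ}.Nonempty :=
  ⟨0, le_rfl, zero_le_one, removal_zero H γ ε⟩

/-- the supremum is attained -/
lemma removal_delta (γ ε : ℝ) : Removal H γ ε (delta H γ ε) := by
  intro V _ G h1 h2
  rcases eq_or_lt_of_le (show (0 : ℝ) ≤ (Fintype.card V : ℝ) ^ Fintype.card W by positivity)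
    with h0 | h0
  · rw [← h0, mul_zero]
    positivity
  · rw [← le_div_iff₀ h0]
    apply csSup_le (delta_nonempty H γ ε)
    intro δ hδ
    rw [le_div_iff₀ h0]
    exact hδ.2.2 V G h1 h2

lemma le_delta {γ ε δ : ℝ} (h0 : 0 ≤ δ) (h1 : δ ≤ 1) (h : Removal H γ ε δ) : δ ≤ delta H γ ε :=
  le_csSup (delta_bdd H γ ε) ⟨h0, h1, h⟩

lemma one_mem_poly : (1 : ℝ) ∈ {γ : ℝ | 0 ≤ γ ∧ γ ≤ 1 ∧ ∃ μ : ℝ, 0 < μ ∧
    ∀ ε : ℝ, 0 < ε → ε ≤ 1 → μ * ε ^ (1 / μ) ≤ delta H γ ε} := by
  refine ⟨zero_le_one, le_rfl, 1, one_pos, fun ε h0 h1 => ?_⟩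
  have h2 : (1 : ℝ) ≤ delta H 1 ε := by
    apply le_delta H zero_le_one le_rfl
    intro V _ G hd ⟨S, hS, _, hc⟩
    rw [one_mul]
    rcases isEmpty_or_nonempty V with hV | ⟨⟨v⟩⟩
    · rcases isEmpty_or_nonempty W with hW | hW
      · have hf : {f : W → V | IsCopy H G f} = Set.univ := by
          ext f
          simp only [Set.mem_ofPred_eq, Set.mem_univ, iff_true]
          exact ⟨fun a => (hW.false a).elim, fun a => (hW.false a).elim⟩
        rw [hf, Set.ncard_univ, Nat.card_eq_fintype_card]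
        simp
      · have : Fintype.card V = 0 := Fintype.card_eq_zero
        rw [this, Nat.cast_zero, zero_pow Fintype.card_ne_zero]
        positivity
    · exfalso
      have h3 := hd v
      rw [one_mul, Nat.cast_le] at h3
      have h4 : (G.neighborSet v).ncard < Fintype.card V := by
        rw [← Nat.card_eq_fintype_card, ← Set.ncard_univ]
        apply Set.ncard_lt_ncard _ (Set.toFinite _)
        rw [Set.ssubset_univ_iff]
        intro h5
        have : v ∈ G.neighborSet v := by rw [h5]; trivial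
        exact G.irrefl this
      omega
  have h3 : (1 : ℝ) * ε ^ (1 / (1 : ℝ)) ≤ 1 := by
    rw [div_one, Real.rpow_one, one_mul]
    exact h1
  exact h3.trans h2

lemma poly_bddBelow : BddBelow {γ : ℝ | 0 ≤ γ ∧ γ ≤ 1 ∧ ∃ μ : ℝ, 0 < μ ∧
    ∀ ε : ℝ, 0 < ε → ε ≤ 1 → μ * ε ^ (1 / μ) ≤ delta H γ ε} :=
  ⟨0, fun _ h => h.1⟩

end Pool.Agent.H24.RM
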