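import Mathlib
import Pool.Agent.H24.RM.Defs

/-!
# The endomorphisms of the Möbius ladder
-/

set_option autoImplicit false

namespace Pool.Agent.H24.RM

lemma step_M12 (x y : Fin 12) (h : M12.Adj x y) : ∃ σ : ℕ, (5 ≤ σ ∧ σ ≤ 7) ∧
    (5 * x.val + σ) % 12 = (5 * y.val) % 12 ∧ (σ = 5 → y = x + 1) ∧ (σ = 7 → x = y + 1) := by
  change y = x + 1 ∨ x = y + 1 ∨ y = x + 6 at h
  rcases h with h | h | h
  · refine ⟨5, by norm_num, ?_, fun _ => h, fun h => by omega⟩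
    subst h
    revert x
    decide
  · refine ⟨7, by norm_num, ?_, fun h => by omega, fun _ => h⟩
    subst h
    revert y
    decide
  · refine ⟨6, by norm_num, ?_, fun h => by omega, fun h => by omega⟩
    subst h
    revert x
    decide

lemma tele {a b c s t : ℕ} (h1 : (5 * a + s) % 12 = (5 * b) % 12)
    (h2 : (5 * b + t) % 12 = (5 * c) % 12) : (5 * a + (s + t)) % 12 = (5 * c) % 12 := by
  omega

lemma window {a b r s0 s1 s2 s3 s4 s5 : ℕ} (h0 : 5 ≤ s0 ∧ s0 ≤ 7) (h1 : 5 ≤ s1 ∧ s1 ≤ 7)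
    (h2 : 5 ≤ s2 ∧ s2 ≤ 7) (h3 : 5 ≤ s3 ∧ s3 ≤ 7) (h4 : 5 ≤ s4 ∧ s4 ≤ 7) (h5 : 5 ≤ s5 ∧ s5 ≤ 7)
    (hr : 5 ≤ r ∧ r ≤ 7)
    (h : (5 * a + (s0 + s1 + s2 + s3 + s4 + s5)) % 12 = (5 * b) % 12)
    (h' : (5 * a + r) % 12 = (5 * b) % 12) :
    s0 + s1 + s2 + s3 + s4 + s5 ≤ 31 ∨ 41 ≤ s0 + s1 + s2 + s3 + s4 + s5 := by
  have h2 : (s0 + s1 + s2 + s3 + s4 + s5) % 12 = r % 12 :=
    Nat.ModEq.add_left_cancel' (5 * a) (h.trans h'.symm)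
  have h3 : r % 12 = r := Nat.mod_eq_of_lt (by omega)
  rw [h3] at h2
  clear h h' h3
  omega

lemma all_eq {s0 s1 s2 s3 s4 s5 s6 s7 s8 s9 s10 s11 : ℕ} (a0 : 5 ≤ s0 ∧ s0 ≤ 7)
    (a1 : 5 ≤ s1 ∧ s1 ≤ 7) (a2 : 5 ≤ s2 ∧ s2 ≤ 7) (a3 : 5 ≤ s3 ∧ s3 ≤ 7) (a4 : 5 ≤ s4 ∧ s4 ≤ 7)
    (a5 : 5 ≤ s5 ∧ s5 ≤ 7) (a6 : 5 ≤ s6 ∧ s6 ≤ 7) (a7 : 5 ≤ s7 ∧ s7 ≤ 7) (a8 : 5 ≤ s8 ∧ s8 ≤ 7)
    (a9 : 5 ≤ s9 ∧ s9 ≤ 7) (a10 : 5 ≤ s10 ∧ s10 ≤ 7) (a11 : 5 ≤ s11 ∧ s11 ≤ 7)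
    (w0 : s0 + s1 + s2 + s3 + s4 + s5 ≤ 31 ∨ 41 ≤ s0 + s1 + s2 + s3 + s4 + s5)
    (w1 : s1 + s2 + s3 + s4 + s5 + s6 ≤ 31 ∨ 41 ≤ s1 + s2 + s3 + s4 + s5 + s6)
    (w2 : s2 + s3 + s4 + s5 + s6 + s7 ≤ 31 ∨ 41 ≤ s2 + s3 + s4 + s5 + s6 + s7)
    (w3 : s3 + s4 + s5 + s6 + s7 + s8 ≤ 31 ∨ 41 ≤ s3 + s4 + s5 + s6 + s7 + s8)
    (w4 : s4 + s5 + s6 + s7 + s8 + s9 ≤ 31 ∨ 41 ≤ s4 + s5 + s6 + s7 + s8 + s9)
    (w5 : s5 + s6 + s7 + s8 + s9 + s10 ≤ 31 ∨ 41 ≤ s5 + s6 + s7 + s8 + s9 + s10)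
    (w6 : s6 + s7 + s8 + s9 + s10 + s11 ≤ 31 ∨ 41 ≤ s6 + s7 + s8 + s9 + s10 + s11)
    (wt : (s0 + s1 + s2 + s3 + s4 + s5 + (s6 + s7 + s8 + s9 + s10 + s11)) % 12 = 0) :
    (s0 = 5 ∧ s1 = 5 ∧ s2 = 5 ∧ s3 = 5 ∧ s4 = 5 ∧ s5 = 5 ∧ s6 = 5 ∧ s7 = 5 ∧ s8 = 5 ∧
      s9 = 5 ∧ s10 = 5) ∨ (s0 = 7 ∧ s1 = 7 ∧ s2 = 7 ∧ s3 = 7 ∧ s4 = 7 ∧ s5 = 7 ∧ s6 = 7 ∧
      s7 = 7 ∧ s8 = 7 ∧ s9 = 7 ∧ s10 = 7) := by
  rcases w0 with w0 | w0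
  · left
    have w1' : s1 + s2 + s3 + s4 + s5 + s6 ≤ 31 := by
      rcases w1 with h | h
      · exact h
      · omega
    have w2' : s2 + s3 + s4 + s5 + s6 + s7 ≤ 31 := by
      rcases w2 with h | h
      · exact h
      · omega
    have w3' : s3 + s4 + s5 + s6 + s7 + s8 ≤ 31 := by
      rcases w3 with h | h
      · exact h
      · omega
    have w4' : s4 + s5 + s6 + s7 + s8 + s9 ≤ 31 := by
      rcases w4 with h | h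
      · exact h
      · omega
    have w5' : s5 + s6 + s7 + s8 + s9 + s10 ≤ 31 := by
      rcases w5 with h | h
      · exact h
      · omega
    have w6' : s6 + s7 + s8 + s9 + s10 + s11 ≤ 31 := by
      rcases w6 with h | h
      · exact h
      · omega
    clear w1 w2 w3 w4 w5 w6 w1' w2' w3' w4' w5'
    have e1 : s0 + s1 + s2 + s3 + s4 + s5 = 30 ∧ s6 + s7 + s8 + s9 + s10 + s11 = 30 := by omega
    clear wt w0 w6'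
    refine ⟨?_, ?_, ?_, ?_, ?_, ?_, ?_, ?_, ?_, ?_, ?_⟩ <;> omega
  · right
    have w1' : 41 ≤ s1 + s2 + s3 + s4 + s5 + s6 := by
      rcases w1 with h | h
      · omega
      · exact h
    have w2' : 41 ≤ s2 + s3 + s4 + s5 + s6 + s7 := by
      rcases w2 with h | h
      · omega
      · exact h
    have w3' : 41 ≤ s3 + s4 + s5 + s6 + s7 + s8 := by
      rcases w3 with h | h
      · omega
      · exact h
    have w4' : 41 ≤ s4 + s5 + s6 + s7 + s8 + s9 := by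
      rcases w4 with h | h
      · omega
      · exact h
    have w5' : 41 ≤ s5 + s6 + s7 + s8 + s9 + s10 := by
      rcases w5 with h | h
      · omega
      · exact h
    have w6' : 41 ≤ s6 + s7 + s8 + s9 + s10 + s11 := by
      rcases w6 with h | h
      · omega
      · exact h
    clear w1 w2 w3 w4 w5 w6 w1' w2' w3' w4' w5'
    have e1 : s0 + s1 + s2 + s3 + s4 + s5 = 42 ∧ s6 + s7 + s8 + s9 + s10 + s11 = 42 := by omega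
    clear wt w0 w6'
    refine ⟨?_, ?_, ?_, ?_, ?_, ?_, ?_, ?_, ?_, ?_, ?_⟩ <;> omega

/-- every endomorphism of `M12` is injective -/
theorem endo_inj (ψ : Fin 12 → Fin 12) (h : ∀ a b, M12.Adj a b → M12.Adj (ψ a) (ψ b)) :
    Function.Injective ψ := by
  obtain ⟨s0, a0, c0, d0, e0⟩ := step_M12 _ _ (h 0 1 (Or.inl rfl))
  obtain ⟨s1, a1, c1, d1, e1⟩ := step_M12 _ _ (h 1 2 (Or.inl rfl))
  obtain ⟨s2, a2, c2, d2, e2⟩ := step_M12 _ _ (h 2 3 (Or.inl rfl))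
  obtain ⟨s3, a3, c3, d3, e3⟩ := step_M12 _ _ (h 3 4 (Or.inl rfl))
  obtain ⟨s4, a4, c4, d4, e4⟩ := step_M12 _ _ (h 4 5 (Or.inl rfl))
  obtain ⟨s5, a5, c5, d5, e5⟩ := step_M12 _ _ (h 5 6 (Or.inl rfl))
  obtain ⟨s6, a6, c6, d6, e6⟩ := step_M12 _ _ (h 6 7 (Or.inl rfl))
  obtain ⟨s7, a7, c7, d7, e7⟩ := step_M12 _ _ (h 7 8 (Or.inl rfl))
  obtain ⟨s8, a8, c8, d8, e8⟩ := step_M12 _ _ (h 8 9 (Or.inl rfl))
  obtain ⟨s9, a9, c9, d9, e9⟩ := step_M12 _ _ (h 9 10 (Or.inl rfl))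
  obtain ⟨s10, a10, c10, d10, e10⟩ := step_M12 _ _ (h 10 11 (Or.inl rfl))
  obtain ⟨s11, a11, c11, d11, e11⟩ := step_M12 _ _ (h 11 0 (Or.inl rfl))
  obtain ⟨r0, g0, k0, -, -⟩ := step_M12 _ _ (h 0 6 (Or.inr (Or.inr rfl)))
  obtain ⟨r1, g1, k1, -, -⟩ := step_M12 _ _ (h 1 7 (Or.inr (Or.inr rfl)))
  obtain ⟨r2, g2, k2, -, -⟩ := step_M12 _ _ (h 2 8 (Or.inr (Or.inr rfl)))
  obtain ⟨r3, g3, k3, -, -⟩ := step_M12 _ _ (h 3 9 (Or.inr (Or.inr rfl)))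
  obtain ⟨r4, g4, k4, -, -⟩ := step_M12 _ _ (h 4 10 (Or.inr (Or.inr rfl)))
  obtain ⟨r5, g5, k5, -, -⟩ := step_M12 _ _ (h 5 11 (Or.inr (Or.inr rfl)))
  obtain ⟨r6, g6, k6, -, -⟩ := step_M12 _ _ (h 6 0 (Or.inr (Or.inr rfl)))
  have m0 := tele (tele (tele (tele (tele c0 c1) c2) c3) c4) c5
  have m1 := tele (tele (tele (tele (tele c1 c2) c3) c4) c5) c6
  have m2 := tele (tele (tele (tele (tele c2 c3) c4) c5) c6) c7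
  have m3 := tele (tele (tele (tele (tele c3 c4) c5) c6) c7) c8
  have m4 := tele (tele (tele (tele (tele c4 c5) c6) c7) c8) c9
  have m5 := tele (tele (tele (tele (tele c5 c6) c7) c8) c9) c10
  have m6 := tele (tele (tele (tele (tele c6 c7) c8) c9) c10) c11
  have w0 := window a0 a1 a2 a3 a4 a5 g0 m0 k0
  have w1 := window a1 a2 a3 a4 a5 a6 g1 m1 k1
  have w2 := window a2 a3 a4 a5 a6 a7 g2 m2 k2
  have w3 := window a3 a4 a5 a6 a7 a8 g3 m3 k3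
  have w4 := window a4 a5 a6 a7 a8 a9 g4 m4 k4
  have w5 := window a5 a6 a7 a8 a9 a10 g5 m5 k5
  have w6 := window a6 a7 a8 a9 a10 a11 g6 m6 k6
  have wt : (s0 + s1 + s2 + s3 + s4 + s5 + (s6 + s7 + s8 + s9 + s10 + s11)) % 12 = 0 := by
    have h12 := tele m0 m6
    exact (Nat.modEq_zero_iff_dvd.1 (Nat.ModEq.add_left_cancel' (5 * (ψ 0).val)
      (h12.trans (by rw [add_zero])))) |> Nat.mod_eq_zero_of_dvd
  have key := all_eq a0 a1 a2 a3 a4 a5 a6 a7 a8 a9 a10 a11 w0 w1 w2 w3 w4 w5 w6 wt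
  clear c0 c1 c2 c3 c4 c5 c6 c7 c8 c9 c10 c11 k0 k1 k2 k3 k4 k5 k6
    g0 g1 g2 g3 g4 g5 g6 w0 w1 w2 w3 w4 w5 w6 wt m0 m1 m2 m3 m4 m5 m6
  rcases key with ⟨t0, t1, t2, t3, t4, t5, t6, t7, t8, t9, t10⟩ |
    ⟨t0, t1, t2, t3, t4, t5, t6, t7, t8, t9, t10⟩
  · have hψ : ∀ i, ψ i = ψ 0 + i := by
      have h1 : ψ 1 = ψ 0 + 1 := d0 t0
      have h2 : ψ 2 = ψ 0 + 2 := by rw [d1 t1, h1, add_assoc]; rfl
      have h3 : ψ 3 = ψ 0 + 3 := by rw [d2 t2, h2, add_assoc]; rfl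
      have h4 : ψ 4 = ψ 0 + 4 := by rw [d3 t3, h3, add_assoc]; rfl
      have h5 : ψ 5 = ψ 0 + 5 := by rw [d4 t4, h4, add_assoc]; rfl
      have h6 : ψ 6 = ψ 0 + 6 := by rw [d5 t5, h5, add_assoc]; rfl
      have h7 : ψ 7 = ψ 0 + 7 := by rw [d6 t6, h6, add_assoc]; rfl
      have h8 : ψ 8 = ψ 0 + 8 := by rw [d7 t7, h7, add_assoc]; rfl
      have h9 : ψ 9 = ψ 0 + 9 := by rw [d8 t8, h8, add_assoc]; rfl
      have h10 : ψ 10 = ψ 0 + 10 := by rw [d9 t9, h9, add_assoc]; rfl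
      have h11 : ψ 11 = ψ 0 + 11 := by rw [d10 t10, h10, add_assoc]; rfl
      intro i
      fin_cases i
      exacts [(add_zero _).symm, h1, h2, h3, h4, h5, h6, h7, h8, h9, h10, h11]
    intro a b hab
    rw [hψ a, hψ b] at hab
    exact add_left_cancel hab
  · have hψ : ∀ i, ψ i + i = ψ 0 := by
      have h1 : ψ 1 + 1 = ψ 0 := (e0 t0).symm
      have h2 : ψ 2 + 2 = ψ 0 := by rw [← h1, e1 t1, add_assoc]; rfl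
      have h3 : ψ 3 + 3 = ψ 0 := by rw [← h2, e2 t2, add_assoc]; rfl
      have h4 : ψ 4 + 4 = ψ 0 := by rw [← h3, e3 t3, add_assoc]; rfl
      have h5 : ψ 5 + 5 = ψ 0 := by rw [← h4, e4 t4, add_assoc]; rfl
      have h6 : ψ 6 + 6 = ψ 0 := by rw [← h5, e5 t5, add_assoc]; rfl
      have h7 : ψ 7 + 7 = ψ 0 := by rw [← h6, e6 t6, add_assoc]; rfl
      have h8 : ψ 8 + 8 = ψ 0 := by rw [← h7, e7 t7, add_assoc]; rfl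
      have h9 : ψ 9 + 9 = ψ 0 := by rw [← h8, e8 t8, add_assoc]; rfl
      have h10 : ψ 10 + 10 = ψ 0 := by rw [← h9, e9 t9, add_assoc]; rfl
      have h11 : ψ 11 + 11 = ψ 0 := by rw [← h10, e10 t10, add_assoc]; rfl
      intro i
      fin_cases i
      exacts [add_zero _, h1, h2, h3, h4, h5, h6, h7, h8, h9, h10, h11]
    intro a b hab
    have h1 := (hψ a).trans (hψ b).symm
    rw [hab] at h1
    exact add_left_cancel h1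

end Pool.Agent.H24.RM
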