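import Mathlib
import Pool.Agent.H24.RM.Defs
import Pool.Agent.H24.RM.Core
import Pool.Agent.H24.RM.AP

/-!
# The lower bound for the threshold of `M12`: the graph
-/

set_option autoImplicit false

namespace Pool.Agent.H24.RM

open Finset

/-- the sizes of the classes -/
def sz (K M : ℕ) (i : Fin 12) : ℕ := if i = 0 ∨ i = 3 ∨ i = 6 ∨ i = 9 then K else M

/-- the sparse relations between the classes `1, 2, 8, 7` -/
def Rel (A : Finset ℕ) (i : Fin 12) (x : ℕ) (j : Fin 12) (y : ℕ) : Prop :=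
  (i = 1 → j = 2 → ∃ a ∈ A, y = x + a) ∧ (i = 2 → j = 8 → ∃ a ∈ A, y = x + a) ∧
  (i = 8 → j = 7 → ∃ a ∈ A, y = x + a) ∧ (i = 1 → j = 7 → ∃ a ∈ A, y = x + 3 * a)

/-- the vertices -/
abbrev Vt (K M : ℕ) : Type := (i : Fin 12) × Fin (sz K M i)

/-- the graph -/
def Gr (K M : ℕ) (A : Finset ℕ) : SimpleGraph (Vt K M) where
  Adj p q := M12.Adj p.1 q.1 ∧ Rel A p.1 p.2.val q.1 q.2.val ∧ Rel A q.1 q.2.val p.1 p.2.val
  symm := by
    constructor
    intro p q h
    exact ⟨h.1.symm, h.2.2, h.2.1⟩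
  loopless := by
    constructor
    intro p h
    exact M12.irrefl h.1

lemma vt_ext {K M : ℕ} {p q : Vt K M} (h1 : p.1 = q.1) (h2 : p.2.val = q.2.val) : p = q := by
  obtain ⟨i, x⟩ := p
  obtain ⟨j, y⟩ := q
  simp only at h1
  subst h1
  simp only at h2
  rw [Fin.ext h2]

lemma card_Vt (K M : ℕ) : Fintype.card (Vt K M) = 4 * K + 8 * M := by
  rw [Fintype.card_sigma]
  simp only [Fintype.card_fin]
  unfold sz
  rw [Finset.sum_ite, Finset.sum_const, Finset.sum_const, smul_eq_mul, smul_eq_mul]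
  have h1 : (Finset.univ.filter fun i : Fin 12 => i = 0 ∨ i = 3 ∨ i = 6 ∨ i = 9).card = 4 := by
    decide
  have h2 : (Finset.univ.filter fun i : Fin 12 => ¬ (i = 0 ∨ i = 3 ∨ i = 6 ∨ i = 9)).card = 8 := by
    decide
  rw [h1, h2]

/-- the dominating class -/
def dom (i : Fin 12) : Fin 12 := ![6, 0, 3, 9, 3, 6, 0, 6, 9, 3, 9, 0] i

lemma dom_spec (i : Fin 12) : M12.Adj i (dom i) ∧
    (dom i = 0 ∨ dom i = 3 ∨ dom i = 6 ∨ dom i = 9) := by
  have h : ∀ i : Fin 12, (dom i = i + 1 ∨ i = dom i + 1 ∨ dom i = i + 6) ∧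
    (dom i = 0 ∨ dom i = 3 ∨ dom i = 6 ∨ dom i = 9) := by decide
  exact h i

lemma rel_right (A : Finset ℕ) (i j : Fin 12) (x y : ℕ) (hj : j = 0 ∨ j = 3 ∨ j = 6 ∨ j = 9) :
    Rel A i x j y := by
  refine ⟨fun _ h => ?_, fun _ h => ?_, fun _ h => ?_, fun _ h => ?_⟩ <;>
  · exfalso
    subst h
    revert hj
    decide

lemma rel_left (A : Finset ℕ) (i j : Fin 12) (x y : ℕ) (hj : j = 0 ∨ j = 3 ∨ j = 6 ∨ j = 9) :
    Rel A j x i y := by
  refine ⟨fun h _ => ?_, fun h _ => ?_, fun h _ => ?_, fun h _ => ?_⟩ <;>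
  · exfalso
    subst h
    revert hj
    decide

lemma degree_Gr (K M : ℕ) (A : Finset ℕ) (v : Vt K M) : K ≤ ((Gr K M A).neighborSet v).ncard := by
  obtain ⟨h1, h2⟩ := dom_spec v.1
  have h3 : sz K M (dom v.1) = K := by
    unfold sz
    rw [if_pos h2]
  have h5 : Function.Injective (fun x : Fin (sz K M (dom v.1)) => (⟨dom v.1, x⟩ : Vt K M)) := by
    intro x y h
    exact Fin.ext (congrArg (fun v : Vt K M => v.2.val) h)
  have h4 : (Set.range (fun x : Fin (sz K M (dom v.1)) => (⟨dom v.1, x⟩ : Vt K M))).ncard = K := by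
    rw [← Set.image_univ, Set.ncard_image_of_injective _ h5, Set.ncard_univ,
      Nat.card_eq_fintype_card, Fintype.card_fin, h3]
  calc K = _ := h4.symm
    _ ≤ _ := Set.ncard_le_ncard (by
      rintro _ ⟨x, rfl⟩
      exact ⟨h1, rel_right A _ _ _ _ h2, rel_left A _ _ _ _ h2⟩) (Set.toFinite _)

/-- the coefficients of the copies -/
def lam (i : Fin 12) : ℕ := ![1, 0, 1, 0, 1, 2, 0, 3, 2, 1, 0, 3] i

lemma lam_le (i : Fin 12) : lam i ≤ 3 := by
  have h : ∀ i : Fin 12, lam i ≤ 3 := by decide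
  exact h i

lemma lam_ne (i j : Fin 12) (h : M12.Adj i j) : lam i ≠ lam j := by
  have h1 : ∀ i j : Fin 12, (j = i + 1 ∨ i = j + 1 ∨ j = i + 6) → lam i ≠ lam j := by decide
  exact h1 i j h

section Copies

variable {K M m : ℕ} {A : Finset ℕ} (hA : ∀ a ∈ A, a < m) (hK : 4 * m ≤ K) (hM : 4 * m ≤ M)

include hA hK hM in
lemma bound_phi (p : Fin m × {a // a ∈ A}) (i : Fin 12) :
    p.1.val + lam i * p.2.val < sz K M i := by
  have h1 : p.1.val < m := p.1.2
  have h2 : p.2.val < m := hA _ p.2.2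
  have h3 : lam i * p.2.val ≤ 3 * p.2.val := Nat.mul_le_mul_right _ (lam_le i)
  have h4 : 4 * m ≤ sz K M i := by
    unfold sz
    split_ifs
    · exact hK
    · exact hM
  omega

/-- the copies -/
def phi (p : Fin m × {a // a ∈ A}) (i : Fin 12) : Vt K M :=
  ⟨i, ⟨p.1.val + lam i * p.2.val, bound_phi hA hK hM p i⟩⟩

lemma phi_copy (p : Fin m × {a // a ∈ A}) : IsCopy M12 (Gr K M A) (phi hA hK hM p) := by
  have hrel : ∀ i j, Rel A i (p.1.val + lam i * p.2.val) j (p.1.val + lam j * p.2.val) := by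
    intro i j
    refine ⟨fun h1 h2 => ?_, fun h1 h2 => ?_, fun h1 h2 => ?_, fun h1 h2 => ?_⟩ <;>
    · subst h1
      subst h2
      refine ⟨p.2.val, p.2.2, ?_⟩
      simp [lam]
      try ring
  refine ⟨fun i j h => congrArg Sigma.fst h, fun i j h => ⟨h, hrel i j, hrel j i⟩⟩

lemma solve {s t x x' a a' : ℕ} (hst : s ≠ t) (h1 : x + s * a = x' + s * a')
    (h2 : x + t * a = x' + t * a') : x = x' ∧ a = a' := by
  have h3 : ((s : ℤ) - t) * ((a : ℤ) - a') = 0 := by
    have e1 : (x : ℤ) + s * a = x' + s * a' := by exact_mod_cast h1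
    have e2 : (x : ℤ) + t * a = x' + t * a' := by exact_mod_cast h2
    linear_combination e1 - e2
  rcases mul_eq_zero.1 h3 with h | h
  · exfalso
    apply hst
    omega
  · have h4 : a = a' := by omega
    subst h4
    exact ⟨by omega, rfl⟩

lemma phi_inj : Function.Injective (phi (K := K) (M := M) hA hK hM) := by
  intro p q h
  have h1 : ∀ i, p.1.val + lam i * p.2.val = q.1.val + lam i * q.2.val := by
    intro i
    have := congrFun h i
    exact congrArg (fun v : Vt K M => v.2.val) this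
  have h2 := solve (lam_ne 0 1 (Or.inl rfl)) (h1 0) (h1 1)
  exact Prod.ext (Fin.ext h2.1) (Subtype.ext h2.2)

lemma phi_disjoint (p q : Fin m × {a // a ∈ A}) (h : p ≠ q) :
    EdgeDisjoint M12 (phi (K := K) (M := M) hA hK hM p) (phi hA hK hM q) := by
  intro a b c d hab hcd heq
  apply h
  have key : ∀ a' b' c' d' : Fin 12, M12.Adj a' b' →
      phi (K := K) (M := M) hA hK hM p a' = phi hA hK hM q c' →
      phi (K := K) (M := M) hA hK hM p b' = phi hA hK hM q d' → p = q := by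
    intro a' b' c' d' hab' h1 h2
    have e1 : a' = c' := congrArg Sigma.fst h1
    have e2 : b' = d' := congrArg Sigma.fst h2
    subst e1
    subst e2
    have f1 : p.1.val + lam a' * p.2.val = q.1.val + lam a' * q.2.val :=
      congrArg (fun v : Vt K M => v.2.val) h1
    have f2 : p.1.val + lam b' * p.2.val = q.1.val + lam b' * q.2.val :=
      congrArg (fun v : Vt K M => v.2.val) h2
    have h3 := solve (lam_ne a' b' hab') f1 f2
    exact Prod.ext (Fin.ext h3.1) (Subtype.ext h3.2)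
  rw [Sym2.eq_iff] at heq
  rcases heq with ⟨h1, h2⟩ | ⟨h1, h2⟩
  · exact key a b c d hab h1 h2
  · exact key a b d c hab h1 h2

end Copies

end Pool.Agent.H24.RM
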