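import Mathlib
import Pool.Agent.H24.RM.Low

/-!
# The lower bound for the threshold of `M12`: few copies
-/

set_option autoImplicit false

namespace Pool.Agent.H24.RM

open Finset

instance : DecidableRel M12.Adj := fun a b =>
  inferInstanceAs (Decidable (b = a + 1 ∨ a = b + 1 ∨ b = a + 6))

lemma endo_reflect (ψ : Fin 12 → Fin 12) (h : ∀ a b, M12.Adj a b → M12.Adj (ψ a) (ψ b))
    (a b : Fin 12) (hab : M12.Adj (ψ a) (ψ b)) : M12.Adj a b := by
  have hinj := endo_inj ψ h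
  set E : Finset (Fin 12 × Fin 12) := univ.filter (fun p => M12.Adj p.1 p.2) with hE
  have h1 : E.image (Prod.map ψ ψ) ⊆ E := by
    intro p hp
    rw [mem_image] at hp
    obtain ⟨q, hq, rfl⟩ := hp
    rw [hE, mem_filter] at hq ⊢
    exact ⟨mem_univ _, h _ _ hq.2⟩
  have h2 : E.image (Prod.map ψ ψ) = E := by
    apply eq_of_subset_of_card_le h1
    rw [card_image_of_injective _ (hinj.prodMap hinj)]
  have h3 : (ψ a, ψ b) ∈ E.image (Prod.map ψ ψ) := by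
    rw [h2, hE, mem_filter]
    exact ⟨mem_univ _, hab⟩
  rw [mem_image] at h3
  obtain ⟨⟨c, d⟩, hq, heq⟩ := h3
  rw [hE, mem_filter] at hq
  have e1 : ψ c = ψ a := congrArg Prod.fst heq
  have e2 : ψ d = ψ b := congrArg Prod.snd heq
  rw [← hinj e1, ← hinj e2]
  exact hq.2

/-- the copies which respect the classes -/
def Qs (K M : ℕ) (A : Finset ℕ) : Set (Fin 12 → Vt K M) :=
  {g | (∀ i, (g i).1 = i) ∧ ∀ i j, M12.Adj i j → (Gr K M A).Adj (g i) (g j)}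

lemma copies_subset (K M : ℕ) (A : Finset ℕ) :
    {f : Fin 12 → Vt K M | IsCopy M12 (Gr K M A) f} ⊆
      (fun p : (Fin 12 → Fin 12) × (Fin 12 → Vt K M) => p.2 ∘ p.1) ''
        (Set.univ ×ˢ Qs K M A) := by
  intro f hf
  obtain ⟨_, hf2⟩ := hf
  set ψ : Fin 12 → Fin 12 := fun i => (f i).1 with hψ
  have h1 : ∀ a b, M12.Adj a b → M12.Adj (ψ a) (ψ b) := fun a b hab => (hf2 a b hab).1
  have hinj := endo_inj ψ h1
  have hbij : Function.Bijective ψ := Finite.injective_iff_bijective.1 hinj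
  set e : Fin 12 ≃ Fin 12 := Equiv.ofBijective ψ hbij with he
  have he1 : ∀ i, ψ (e.symm i) = i := fun i => Equiv.ofBijective_apply_symm_apply ψ hbij i
  have he2 : ∀ i, e.symm (ψ i) = i := fun i => Equiv.ofBijective_symm_apply_apply ψ hbij i
  refine ⟨(ψ, fun i => f (e.symm i)), ⟨Set.mem_univ _, fun i => he1 i, fun i j hij => ?_⟩, ?_⟩
  · apply hf2
    apply endo_reflect ψ h1
    rw [he1, he1]
    exact hij
  · funext i
    change f (e.symm (ψ i)) = f i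
    rw [he2]

lemma Q_struct {K M m : ℕ} {A : Finset ℕ} (hA : ∀ a ∈ A, a < m)
    (htriv : ∀ a ∈ A, ∀ b ∈ A, ∀ c ∈ A, ∀ e ∈ A, a + b + c = 3 * e → a = e ∧ b = e ∧ c = e)
    {g : Fin 12 → Vt K M} (hg : g ∈ Qs K M A) :
    ∃ a, a < m ∧ (g 2).2.val = (g 1).2.val + a ∧ (g 8).2.val = (g 1).2.val + 2 * a ∧
      (g 7).2.val = (g 1).2.val + 3 * a := by
  obtain ⟨h1, h2⟩ := hg
  obtain ⟨a, ha, hax⟩ := (h2 1 2 (by decide)).2.1.1 (h1 1) (h1 2)
  obtain ⟨b, hb, hbx⟩ := (h2 2 8 (by decide)).2.1.2.1 (h1 2) (h1 8)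
  obtain ⟨c, hc, hcx⟩ := (h2 8 7 (by decide)).2.1.2.2.1 (h1 8) (h1 7)
  obtain ⟨e, he, hex⟩ := (h2 1 7 (by decide)).2.1.2.2.2 (h1 1) (h1 7)
  obtain ⟨e1, e2, e3⟩ := htriv a ha b hb c hc e he (by omega)
  exact ⟨a, hA a ha, hax, by omega, by omega⟩

lemma Q_bound {K M m : ℕ} {A : Finset ℕ} (hA : ∀ a ∈ A, a < m)
    (htriv : ∀ a ∈ A, ∀ b ∈ A, ∀ c ∈ A, ∀ e ∈ A, a + b + c = 3 * e → a = e ∧ b = e ∧ c = e) :
    (Qs K M A).ncard ≤ M * m * (4 * K + 8 * M) ^ 8 := by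
  classical
  set T : Finset (ℕ × ℕ × ({i : Fin 12 // i ≠ 1 ∧ i ≠ 2 ∧ i ≠ 7 ∧ i ≠ 8} → Vt K M)) :=
    Finset.range M ×ˢ Finset.range m ×ˢ Finset.univ with hT
  have hTc : T.card = M * m * (4 * K + 8 * M) ^ 8 := by
    rw [hT, Finset.card_product, Finset.card_product, Finset.card_range, Finset.card_range,
      Finset.card_univ, Fintype.card_fun, card_Vt, mul_assoc]
    congr 3
  rw [← hTc, ← Set.ncard_coe_finset]
  apply Set.ncard_le_ncard_of_injOn
    (fun g => ((g 1).2.val, (g 2).2.val - (g 1).2.val, fun i => g i.1))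
  · intro g hg
    obtain ⟨a, ha, h2, _, _⟩ := Q_struct hA htriv hg
    rw [hT, Finset.mem_coe, Finset.mem_product, Finset.mem_product]
    refine ⟨?_, ?_, Finset.mem_univ _⟩
    · rw [Finset.mem_range]
      have h3 := (g 1).2.2
      have h4 : sz K M (g 1).1 = M := by
        rw [hg.1 1]
        rfl
      calc (g 1).2.val < sz K M (g 1).1 := h3
        _ = M := h4
    · rw [Finset.mem_range]
      simp only
      omega
  · intro g hg g' hg' heq
    obtain ⟨a, _, h2, h3, h4⟩ := Q_struct hA htriv hg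
    obtain ⟨a', _, h2', h3', h4'⟩ := Q_struct hA htriv hg'
    have e1 : (g 1).2.val = (g' 1).2.val := congrArg (fun p => p.1) heq
    have e2 : (g 2).2.val - (g 1).2.val = (g' 2).2.val - (g' 1).2.val :=
      congrArg (fun p => p.2.1) heq
    have e3 : (fun i : {i : Fin 12 // i ≠ 1 ∧ i ≠ 2 ∧ i ≠ 7 ∧ i ≠ 8} => g i.1) =
        (fun i => g' i.1) := congrArg (fun p => p.2.2) heq
    have e4 : a = a' := by omega
    have hcl : ∀ i, (g i).1 = (g' i).1 := fun i => by rw [hg.1, hg'.1]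
    funext i
    by_cases hi : i ≠ 1 ∧ i ≠ 2 ∧ i ≠ 7 ∧ i ≠ 8
    · exact congrFun e3 ⟨i, hi⟩
    · apply vt_ext (hcl i)
      by_cases i1 : i = 1
      · rw [i1, e1]
      by_cases i2 : i = 2
      · rw [i2, h2, h2', e1, e4]
      by_cases i7 : i = 7
      · rw [i7, h4, h4', e1, e4]
      by_cases i8 : i = 8
      · rw [i8, h3, h3', e1, e4]
      exact absurd ⟨i1, i2, i7, i8⟩ hi

lemma copies_bound {K M m : ℕ} {A : Finset ℕ} (hA : ∀ a ∈ A, a < m)
    (htriv : ∀ a ∈ A, ∀ b ∈ A, ∀ c ∈ A, ∀ e ∈ A, a + b + c = 3 * e → a = e ∧ b = e ∧ c = e) :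
    {f : Fin 12 → Vt K M | IsCopy M12 (Gr K M A) f}.ncard ≤
      12 ^ 12 * (M * m * (4 * K + 8 * M) ^ 8) := by
  calc {f : Fin 12 → Vt K M | IsCopy M12 (Gr K M A) f}.ncard
      ≤ ((fun p : (Fin 12 → Fin 12) × (Fin 12 → Vt K M) => p.2 ∘ p.1) ''
        (Set.univ ×ˢ Qs K M A)).ncard := Set.ncard_le_ncard (copies_subset K M A) (Set.toFinite _)
    _ ≤ ((Set.univ : Set (Fin 12 → Fin 12)) ×ˢ Qs K M A).ncard := Set.ncard_image_le (Set.toFinite _)
    _ = 12 ^ 12 * (Qs K M A).ncard := by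
      rw [Set.ncard_prod, Set.ncard_univ, Nat.card_eq_fintype_card, Fintype.card_fun,
        Fintype.card_fin]
    _ ≤ _ := Nat.mul_le_mul_left _ (Q_bound hA htriv)

end Pool.Agent.H24.RM
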