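import Mathlib
import Pool.Agent.H24.RM.Low2

/-!
# The lower bound for the threshold of `M12`
-/

set_option autoImplicit false

namespace Pool.Agent.H24.RM

open Finset

/-- the consequence of the construction for `delta` -/
lemma delta_le {γ : ℝ} {L m : ℕ} {A : Finset ℕ} (hL1 : 1 ≤ L)
    (hL : γ * (4 * L + 8) ≤ L) (hm : 0 < m) (hA : ∀ a ∈ A, a < m)
    (htriv : ∀ a ∈ A, ∀ b ∈ A, ∀ c ∈ A, ∀ e ∈ A, a + b + c = 3 * e → a = e ∧ b = e ∧ c = e) :
    delta M12 γ ((A.card : ℝ) / (256 * m * (L + 2) ^ 2)) * (m : ℝ) ^ 2 ≤ 12 ^ 12 := by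
  classical
  set K : ℕ := 4 * m * L with hK
  set M : ℕ := 4 * m with hM
  set ε : ℝ := (A.card : ℝ) / (256 * m * (L + 2) ^ 2) with hε
  have hm' : (0 : ℝ) < m := by exact_mod_cast hm
  have hL' : (1 : ℝ) ≤ L := by exact_mod_cast hL1
  have hKm : 4 * m ≤ K := by
    rw [hK]
    exact Nat.le_mul_of_pos_right _ hL1
  have hcard : (Fintype.card (Vt K M) : ℝ) = 16 * m * (L + 2) := by
    rw [card_Vt, hK, hM]
    push_cast
    ring
  have hKr : (K : ℝ) = 4 * m * L := by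
    rw [hK, hM]
    push_cast
    ring
  have h1 := removal_delta M12 γ ε (Vt K M) (Gr K M A) (by
      intro v
      have h2 : (K : ℝ) ≤ ((Gr K M A).neighborSet v).ncard := by
        exact_mod_cast degree_Gr K M A v
      refine le_trans ?_ h2
      rw [hcard, hKr]
      nlinarith [mul_le_mul_of_nonneg_left hL (show (0 : ℝ) ≤ 4 * m by positivity)])
    (by
      refine ⟨univ.image (phi (K := K) (M := M) hA hKm le_rfl), ?_, ?_, ?_⟩
      · intro f hf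
        rw [mem_image] at hf
        obtain ⟨p, _, rfl⟩ := hf
        exact phi_copy hA hKm le_rfl p
      · intro f hf g hg hfg
        rw [mem_image] at hf hg
        obtain ⟨p, _, rfl⟩ := hf
        obtain ⟨q, _, rfl⟩ := hg
        apply phi_disjoint hA hKm le_rfl p q
        rintro rfl
        exact hfg rfl
      · rw [card_image_of_injective _ (phi_inj hA hKm le_rfl), card_univ, Fintype.card_prod,
          Fintype.card_fin, Fintype.card_coe, hcard, hε]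
        push_cast
        apply le_of_eq
        field_simp
        ring)
  have h2 : ({f : Fin 12 → Vt K M | IsCopy M12 (Gr K M A) f}.ncard : ℝ) ≤
      12 ^ 12 * ((4 * m) * m * (16 * m * (L + 2)) ^ 8) := by
    have h3 := copies_bound (K := K) (M := M) hA htriv
    have h4 : ({f : Fin 12 → Vt K M | IsCopy M12 (Gr K M A) f}.ncard : ℝ) ≤
      ((12 ^ 12 * (M * m * (4 * K + 8 * M) ^ 8) : ℕ) : ℝ) := by exact_mod_cast h3
    refine h4.trans (le_of_eq ?_)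
    rw [hK, hM]
    push_cast
    ring
  rw [hcard, Fintype.card_fin] at h1
  have h5 := h1.trans h2
  have h6 : (0 : ℝ) < (16 * m * (L + 2)) ^ 8 := by positivity
  have h7 : delta M12 γ ε * (16 * m * (L + 2)) ^ 4 ≤ 12 ^ 12 * ((4 * m) * m) := by
    have h8 : (delta M12 γ ε * (16 * m * (L + 2)) ^ 4) * (16 * m * (L + 2)) ^ 8 ≤
        (12 ^ 12 * ((4 * m) * m)) * (16 * m * (L + 2)) ^ 8 := by
      calc _ = delta M12 γ ε * (16 * m * (L + 2)) ^ 12 := by ring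
        _ ≤ _ := h5
        _ = _ := by ring
    exact le_of_mul_le_mul_right h8 h6
  have hd0 : 0 ≤ delta M12 γ ε :=
    le_delta M12 le_rfl zero_le_one (removal_zero M12 γ ε)
  have h9 : (4 : ℝ) ≤ 16 ^ 4 * (L + 2) ^ 4 := by
    have : (1 : ℝ) ≤ (L + 2) ^ 4 := one_le_pow₀ (by linarith)
    linarith
  have h10 : delta M12 γ ε * (m : ℝ) ^ 2 * (4 * (m : ℝ) ^ 2) ≤ 12 ^ 12 * (4 * (m : ℝ) ^ 2) := by
    calc delta M12 γ ε * (m : ℝ) ^ 2 * (4 * (m : ℝ) ^ 2)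
        = (delta M12 γ ε * (m : ℝ) ^ 4) * 4 := by ring
      _ ≤ (delta M12 γ ε * (m : ℝ) ^ 4) * (16 ^ 4 * (L + 2) ^ 4) := by
          apply mul_le_mul_of_nonneg_left h9
          positivity
      _ = delta M12 γ ε * (16 * m * (L + 2)) ^ 4 := by ring
      _ ≤ _ := h7
      _ = _ := by ring
  exact le_of_mul_le_mul_right h10 (by positivity)

lemma key_ineq {γ μ : ℝ} (hμ : 0 < μ)
    (h : ∀ ε : ℝ, 0 < ε → ε ≤ 1 → μ * ε ^ (1 / μ) ≤ delta M12 γ ε) (L j d : ℕ) (hL1 : 1 ≤ L)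
    (hL : γ * (4 * L + 8) ≤ L) (hj : 1 / μ ≤ j) (hd : 0 < d) :
    μ * (d : ℝ) ^ 2 ≤ 12 ^ 12 * ((j + 2) * 256 * 3 ^ (j + 1) * (L + 2) ^ 2) ^ j := by
  obtain ⟨A, hA, hcard, htriv⟩ := exists_AP (j + 1) d hd
  set m : ℕ := (3 * d) ^ (j + 1) with hm
  have hm0 : 0 < m := by positivity
  have hd' : (1 : ℝ) ≤ d := by exact_mod_cast hd
  have hL' : (1 : ℝ) ≤ L := by exact_mod_cast hL1
  have hmr : (m : ℝ) = 3 ^ (j + 1) * (d : ℝ) ^ (j + 1) := by
    rw [hm]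
    push_cast
    ring
  set c : ℝ := (j + 2) * 256 * 3 ^ (j + 1) * (L + 2) ^ 2 with hc
  have hc1 : 1 ≤ c := by
    have e1 : (1 : ℝ) ≤ 3 ^ (j + 1) := one_le_pow₀ (by norm_num)
    have e2 : (1 : ℝ) ≤ (L + 2) ^ 2 := one_le_pow₀ (by linarith)
    have e3 : (1 : ℝ) ≤ (j + 2) * 256 := by
      have : (0 : ℝ) ≤ j := Nat.cast_nonneg _
      linarith
    calc (1 : ℝ) = 1 * 1 * 1 := by ring
      _ ≤ _ := by
        rw [hc]
        gcongr
  set ε : ℝ := (A.card : ℝ) / (256 * m * (L + 2) ^ 2) with hε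
  have h1 : 1 / (c * (d : ℝ) ^ 2) ≤ ε := by
    rw [hε, div_le_div_iff₀ (by positivity) (by positivity), one_mul]
    have h2 : ((d ^ (j + 1) : ℕ) : ℝ) ≤ (((j + 1) * d ^ 2 + 1) * A.card : ℕ) := by
      exact_mod_cast hcard
    push_cast at h2
    have h3 : ((j : ℝ) + 1) * (d : ℝ) ^ 2 + 1 ≤ (j + 2) * (d : ℝ) ^ 2 := by
      have : (1 : ℝ) ≤ (d : ℝ) ^ 2 := one_le_pow₀ hd'
      linarith
    have h4 : (d : ℝ) ^ (j + 1) ≤ (j + 2) * (d : ℝ) ^ 2 * A.card :=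
      h2.trans (mul_le_mul_of_nonneg_right h3 (Nat.cast_nonneg _))
    calc 256 * (m : ℝ) * (L + 2) ^ 2 = (256 * 3 ^ (j + 1) * (L + 2) ^ 2) * (d : ℝ) ^ (j + 1) := by
          rw [hmr]
          ring
      _ ≤ (256 * 3 ^ (j + 1) * (L + 2) ^ 2) * ((j + 2) * (d : ℝ) ^ 2 * A.card) := by
          gcongr
      _ = _ := by
          rw [hc]
          ring
  have hε0 : 0 < ε := lt_of_lt_of_le (by positivity) h1
  have hAm : A.card ≤ m := by
    have : A ⊆ range m := fun a ha => mem_range.2 (hA a ha)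
    simpa using card_le_card this
  have hε1 : ε ≤ 1 := by
    rw [hε, div_le_one (by positivity)]
    have e1 : (A.card : ℝ) ≤ m := by exact_mod_cast hAm
    have e2 : (1 : ℝ) ≤ (L + 2) ^ 2 := one_le_pow₀ (by linarith)
    have e3 : (0 : ℝ) ≤ m := Nat.cast_nonneg _
    nlinarith
  have h5 := h ε hε0 hε1
  have h6 := delta_le hL1 hL hm0 hA htriv
  rw [← hε] at h6
  have h7 : (1 / (c * (d : ℝ) ^ 2)) ^ j ≤ ε ^ (1 / μ) := by
    have e0 : (0 : ℝ) < 1 / (c * (d : ℝ) ^ 2) := by positivity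
    have e1 : 1 / (c * (d : ℝ) ^ 2) ≤ 1 := by
      rw [div_le_one (by positivity)]
      have : (1 : ℝ) ≤ (d : ℝ) ^ 2 := one_le_pow₀ hd'
      nlinarith
    calc (1 / (c * (d : ℝ) ^ 2)) ^ j = (1 / (c * (d : ℝ) ^ 2)) ^ (j : ℝ) :=
          (Real.rpow_natCast _ _).symm
      _ ≤ (1 / (c * (d : ℝ) ^ 2)) ^ (1 / μ) := Real.rpow_le_rpow_of_exponent_ge e0 e1 hj
      _ ≤ ε ^ (1 / μ) := Real.rpow_le_rpow e0.le h1 (by positivity)
  have h8 : μ * (1 / (c * (d : ℝ) ^ 2)) ^ j * (m : ℝ) ^ 2 ≤ 12 ^ 12 := by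
    refine le_trans ?_ h6
    apply mul_le_mul_of_nonneg_right _ (by positivity)
    exact (mul_le_mul_of_nonneg_left h7 hμ.le).trans h5
  have h9 : (d : ℝ) ^ (2 * j + 2) ≤ (m : ℝ) ^ 2 := by
    rw [hmr]
    have e1 : (1 : ℝ) ≤ (3 ^ (j + 1)) ^ 2 := one_le_pow₀ (one_le_pow₀ (by norm_num))
    calc (d : ℝ) ^ (2 * j + 2) = 1 * ((d : ℝ) ^ (j + 1)) ^ 2 := by ring
      _ ≤ (3 ^ (j + 1)) ^ 2 * ((d : ℝ) ^ (j + 1)) ^ 2 := by gcongr
      _ = _ := by ring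
  have h10 : μ * (1 / (c * (d : ℝ) ^ 2)) ^ j * (d : ℝ) ^ (2 * j + 2) ≤ 12 ^ 12 :=
    (mul_le_mul_of_nonneg_left h9 (by positivity)).trans h8
  have h11 : μ * (1 / (c * (d : ℝ) ^ 2)) ^ j * (d : ℝ) ^ (2 * j + 2) = μ * (d : ℝ) ^ 2 / c ^ j := by
    have e1 : (d : ℝ) ≠ 0 := by positivity
    have e2 : c ≠ 0 := by positivity
    rw [div_pow, one_pow, mul_pow, ← pow_mul]
    field_simp
    ring
  rw [h11, div_le_iff₀ (by positivity)] at h10
  exact h10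

theorem low : (1 / 4 : ℝ) ≤ polyThreshold M12 := by
  apply le_csInf ⟨1, one_mem_poly M12⟩
  rintro γ ⟨h0, -, μ, hμ, h⟩
  by_contra hlt
  push Not at hlt
  have h14 : 0 < 1 - 4 * γ := by linarith
  obtain ⟨L, hL⟩ := exists_nat_ge (8 * γ / (1 - 4 * γ) + 1)
  have hL1 : 1 ≤ L := by
    have : (1 : ℝ) ≤ L := le_trans (by
      have : 0 ≤ 8 * γ / (1 - 4 * γ) := by positivity
      linarith) hL
    exact_mod_cast this
  have hL2 : γ * (4 * L + 8) ≤ L := by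
    have e1 : 8 * γ / (1 - 4 * γ) ≤ L := by linarith
    rw [div_le_iff₀ h14] at e1
    linarith
  obtain ⟨j, hj⟩ := exists_nat_ge (1 / μ)
  set C : ℝ := 12 ^ 12 * ((j + 2) * 256 * 3 ^ (j + 1) * (L + 2) ^ 2) ^ j with hC
  obtain ⟨d, hd⟩ := exists_nat_gt (C / μ + 1)
  have hC0 : 0 ≤ C := by positivity
  have hd1 : (1 : ℝ) < d := lt_of_le_of_lt (by
    have : 0 ≤ C / μ := by positivity
    linarith) hd
  have hd0 : 0 < d := by
    have : (0 : ℝ) < d := by linarith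
    exact_mod_cast this
  have h1 := key_ineq hμ h L j d hL1 hL2 hj hd0
  rw [← hC] at h1
  have h2 : C < μ * d := by
    have e1 : C / μ < d := by linarith
    rw [div_lt_iff₀ hμ] at e1
    linarith
  have h3 : μ * d ≤ μ * (d : ℝ) ^ 2 := by
    apply mul_le_mul_of_nonneg_left _ hμ.le
    nlinarith
  linarith

end Pool.Agent.H24.RM
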