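import Mathlib
import Pool.Agent.H24.RM.Defs

/-!
# The upper bound for the threshold of `C53`: many 5-cycles by sampling
-/

set_option autoImplicit false

namespace Pool.Agent.H24.RM

open Finset

variable {V : Type} [Fintype V] (G : SimpleGraph V)

open Classical in
/-- the sample points adjacent to `v` -/
noncomputable def SX {q : ℕ} (X : Fin q → V) (v : V) : Finset (Fin q) :=
  univ.filter (fun t => G.Adj v (X t))

open Classical in
/-- the number of common neighbours -/
noncomputable def cod (x b : V) : ℕ := (univ.filter (fun y => G.Adj x y ∧ G.Adj y b)).card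

open Classical in
/-- the number of closed walks of length `5` from `x` -/
noncomputable def WW (x : V) : ℝ :=
  ∑ p : V × V, if G.Adj p.1 p.2 then (cod G x p.1 : ℝ) * cod G x p.2 else 0

open Classical in
/-- the number of neighbours of `v` with the type of `w` -/
noncomputable def cnt {q : ℕ} (X : Fin q → V) (v w : V) : ℕ :=
  (univ.filter (fun x => G.Adj v x ∧ SX G X x = SX G X w)).card

open Classical in
/-- the bad pairs -/
noncomputable def bad {q : ℕ} (r : ℕ) (θ : ℝ) (X : Fin q → V) : Finset (V × V) :=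
  univ.filter (fun p => G.Adj p.1 p.2 ∧ ((SX G X p.1).card ≤ r ∨ (cnt G X p.1 p.2 : ℝ) < θ))

open Classical in
/-- the vertices which are not typical -/
noncomputable def atyp {q : ℕ} (r : ℕ) (X : Fin q → V) : Finset V :=
  univ.filter (fun v => (SX G X v).card ≤ r)

open Classical in
lemma atyp_count (r : ℕ) (v : V)
    (hv : (6 / 25 : ℝ) * Fintype.card V ≤ (G.neighborSet v).ncard) :
    ((univ.filter (fun X : Fin (5 * r) → V => (SX G X v).card ≤ r)).card : ℝ) ≤
      (98 / 100 : ℝ) ^ r * (Fintype.card V : ℝ) ^ (5 * r) := by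
  set n : ℝ := (Fintype.card V : ℝ) with hn
  have h1 : ∑ X : Fin (5 * r) → V, (4 / 5 : ℝ) ^ (SX G X v).card =
      (∑ x : V, if G.Adj v x then (4 / 5 : ℝ) else 1) ^ (5 * r) := by
    rw [Fintype.sum_pow]
    apply sum_congr rfl
    intro X _
    rw [prod_ite, prod_const, prod_const_one, mul_one]
    rfl
  have hdeg : (G.neighborSet v).ncard = (univ.filter (fun x => G.Adj v x)).card := by
    rw [← Set.ncard_coe_finset]
    congr 1
    ext x
    simp
  have h2 : ∑ x : V, (if G.Adj v x then (4 / 5 : ℝ) else 1) ≤ (119 / 125) * n := by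
    have e1 : ∀ x, (if G.Adj v x then (4 / 5 : ℝ) else 1) =
        1 - (1 / 5) * (if G.Adj v x then 1 else 0) := by
      intro x
      split_ifs <;> norm_num
    simp_rw [e1]
    rw [sum_sub_distrib, ← mul_sum, sum_boole, ← hdeg, sum_const, card_univ, nsmul_eq_mul, mul_one,
      ← hn]
    linarith
  have h3 : 0 ≤ ∑ x : V, (if G.Adj v x then (4 / 5 : ℝ) else 1) := by
    apply sum_nonneg
    intro x _
    split_ifs <;> norm_num
  have h4 : ((univ.filter (fun X : Fin (5 * r) → V => (SX G X v).card ≤ r)).card : ℝ) *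
      (4 / 5) ^ r ≤ ((119 / 125) * n) ^ (5 * r) := by
    calc ((univ.filter (fun X : Fin (5 * r) → V => (SX G X v).card ≤ r)).card : ℝ) * (4 / 5) ^ r
        = (univ.filter (fun X : Fin (5 * r) → V => (SX G X v).card ≤ r)).card • (4 / 5 : ℝ) ^ r := by
          rw [nsmul_eq_mul]
      _ ≤ ∑ X ∈ univ.filter (fun X : Fin (5 * r) → V => (SX G X v).card ≤ r),
          (4 / 5 : ℝ) ^ (SX G X v).card := by
          apply card_nsmul_le_sum
          intro X hX
          rw [mem_filter] at hX
          exact pow_le_pow_of_le_one (by norm_num) (by norm_num) hX.2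
      _ ≤ ∑ X : Fin (5 * r) → V, (4 / 5 : ℝ) ^ (SX G X v).card := by
          apply sum_le_univ_sum_of_nonneg
          intro X
          positivity
      _ = _ := h1
      _ ≤ _ := pow_le_pow_left₀ h3 h2 _
  have h5 : ((119 / 125) * n) ^ (5 * r) ≤ ((98 / 100 : ℝ) ^ r * n ^ (5 * r)) * (4 / 5) ^ r := by
    have e1 : ((119 / 125 : ℝ) ^ 5) ^ r ≤ ((98 / 100) * (4 / 5)) ^ r :=
      pow_le_pow_left₀ (by positivity) (by norm_num) _
    calc ((119 / 125) * n) ^ (5 * r) = ((119 / 125 : ℝ) ^ 5) ^ r * n ^ (5 * r) := by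
          rw [mul_pow, pow_mul]
      _ ≤ ((98 / 100) * (4 / 5)) ^ r * n ^ (5 * r) :=
          mul_le_mul_of_nonneg_right e1 (by positivity)
      _ = _ := by
          rw [mul_pow]
          ring
  exact le_of_mul_le_mul_right (h4.trans h5) (by positivity)

open Classical in
lemma bad_fiber {q : ℕ} {θ : ℝ} (hθ : 0 ≤ θ) (X : Fin q → V) (v : V) :
    ((univ.filter (fun w => G.Adj v w ∧ (cnt G X v w : ℝ) < θ)).card : ℝ) ≤ 2 ^ q * θ := by
  have h1 : (univ.filter (fun w => G.Adj v w ∧ (cnt G X v w : ℝ) < θ)).card =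
      ∑ T : Finset (Fin q), ((univ.filter (fun w => G.Adj v w ∧ (cnt G X v w : ℝ) < θ)).filter
        (fun w => SX G X w = T)).card :=
    card_eq_sum_card_fiberwise (fun _ _ => mem_univ _)
  rw [h1]
  push_cast
  have h2 : ∀ T : Finset (Fin q),
      (((univ.filter (fun w => G.Adj v w ∧ (cnt G X v w : ℝ) < θ)).filter
        (fun w => SX G X w = T)).card : ℝ) ≤ θ := by
    intro T
    rcases ((univ.filter (fun w => G.Adj v w ∧ (cnt G X v w : ℝ) < θ)).filter
        (fun w => SX G X w = T)).eq_empty_or_nonempty with h | ⟨w, hw⟩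
    · rw [h]
      simpa using hθ
    · rw [mem_filter, mem_filter] at hw
      refine le_trans ?_ hw.1.2.2.le
      rw [Nat.cast_le]
      apply card_le_card
      intro x hx
      rw [mem_filter, mem_filter] at hx
      rw [mem_filter]
      exact ⟨mem_univ _, hx.1.2.1, hx.2.trans hw.2.symm⟩
  calc ∑ T : Finset (Fin q), (((univ.filter (fun w => G.Adj v w ∧ (cnt G X v w : ℝ) < θ)).filter
        (fun w => SX G X w = T)).card : ℝ) ≤ ∑ _T : Finset (Fin q), θ := sum_le_sum fun T _ => h2 T
    _ = 2 ^ q * θ := by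
      rw [sum_const, card_univ, Fintype.card_finset, Fintype.card_fin, nsmul_eq_mul]
      push_cast
      ring

open Classical in
lemma bad_card {q : ℕ} (r : ℕ) {θ : ℝ} (hθ : 0 ≤ θ) (X : Fin q → V) :
    ((bad G r θ X).card : ℝ) ≤ (atyp G r X).card * (Fintype.card V : ℝ) +
      Fintype.card V * (2 ^ q * θ) := by
  have h1 : bad G r θ X ⊆ (atyp G r X ×ˢ univ) ∪
      univ.filter (fun p : V × V => G.Adj p.1 p.2 ∧ (cnt G X p.1 p.2 : ℝ) < θ) := by
    intro p hp
    unfold bad at hp
    rw [mem_filter] at hp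
    rw [mem_union, mem_product, mem_filter]
    rcases hp.2.2 with h | h
    · left
      unfold atyp
      rw [mem_filter]
      exact ⟨⟨mem_univ _, h⟩, mem_univ _⟩
    · right
      exact ⟨mem_univ _, hp.2.1, h⟩
  have h2 : ((univ.filter (fun p : V × V => G.Adj p.1 p.2 ∧ (cnt G X p.1 p.2 : ℝ) < θ)).card : ℝ) ≤
      Fintype.card V * (2 ^ q * θ) := by
    rw [card_filter, Fintype.sum_prod_type]
    push_cast
    calc _ ≤ ∑ _v : V, (2 ^ q * θ) := by
          apply sum_le_sum
          intro v _
          refine le_trans (le_of_eq ?_) (bad_fiber G hθ X v)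
          rw [card_filter]
          push_cast
          rfl
      _ = _ := by
          rw [sum_const, card_univ, nsmul_eq_mul]
  calc ((bad G r θ X).card : ℝ) ≤ (((atyp G r X ×ˢ univ) ∪
      univ.filter (fun p : V × V => G.Adj p.1 p.2 ∧ (cnt G X p.1 p.2 : ℝ) < θ)).card : ℝ) := by
        exact_mod_cast card_le_card h1
    _ ≤ ((atyp G r X ×ˢ (univ : Finset V)).card : ℝ) +
      ((univ.filter (fun p : V × V => G.Adj p.1 p.2 ∧ (cnt G X p.1 p.2 : ℝ) < θ)).card : ℝ) := by
        exact_mod_cast card_union_le _ _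
    _ ≤ _ := by
        rw [card_product, card_univ]
        push_cast
        linarith

/-- the sum over all samples of the bad pairs -/
lemma bad_sum {r : ℕ} {ε θ : ℝ} (hθ : 0 ≤ θ)
    (hdeg : ∀ v, (6 / 25 : ℝ) * Fintype.card V ≤ (G.neighborSet v).ncard)
    (hr2 : (98 / 100 : ℝ) ^ r ≤ ε / 4)
    (hθ2 : 2 ^ (5 * r) * θ ≤ ε / 4 * Fintype.card V) :
    ∑ X : Fin (5 * r) → V, ((bad G r θ X).card : ℝ) ≤
      ε / 2 * (Fintype.card V : ℝ) ^ 2 * (Fintype.card V : ℝ) ^ (5 * r) := by
  classical
  set n : ℝ := (Fintype.card V : ℝ) with hn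
  have hn0 : 0 ≤ n := Nat.cast_nonneg _
  have h1 : ∑ X : Fin (5 * r) → V, ((atyp G r X).card : ℝ) ≤ n * (ε / 4 * n ^ (5 * r)) := by
    have e1 : ∑ X : Fin (5 * r) → V, ((atyp G r X).card : ℝ) =
        ∑ v : V, ((univ.filter (fun X : Fin (5 * r) → V => (SX G X v).card ≤ r)).card : ℝ) := by
      have e2 : ∀ X : Fin (5 * r) → V, ((atyp G r X).card : ℝ) =
          ∑ v : V, if (SX G X v).card ≤ r then (1 : ℝ) else 0 := by
        intro X
        unfold atyp
        rw [card_filter]
        push_cast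
        rfl
      have e3 : ∀ v : V,
          ((univ.filter (fun X : Fin (5 * r) → V => (SX G X v).card ≤ r)).card : ℝ) =
          ∑ X : Fin (5 * r) → V, if (SX G X v).card ≤ r then (1 : ℝ) else 0 := by
        intro v
        rw [card_filter]
        push_cast
        rfl
      simp_rw [e2, e3]
      exact sum_comm
    rw [e1]
    calc _ ≤ ∑ _v : V, (ε / 4 * n ^ (5 * r)) := by
          apply sum_le_sum
          intro v _
          refine (atyp_count G r v (hdeg v)).trans ?_
          exact mul_le_mul_of_nonneg_right hr2 (by positivity)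
      _ = _ := by
          rw [sum_const, card_univ, nsmul_eq_mul]
  calc ∑ X : Fin (5 * r) → V, ((bad G r θ X).card : ℝ)
      ≤ ∑ X : Fin (5 * r) → V, (((atyp G r X).card : ℝ) * n + n * (ε / 4 * n)) := by
        apply sum_le_sum
        intro X _
        refine (bad_card G r hθ X).trans ?_
        have := mul_le_mul_of_nonneg_left hθ2 hn0
        linarith
    _ = (∑ X : Fin (5 * r) → V, ((atyp G r X).card : ℝ)) * n + n ^ (5 * r) * (n * (ε / 4 * n)) := by
        rw [sum_add_distrib, ← sum_mul, sum_const, card_univ, Fintype.card_fun, Fintype.card_fin,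
          nsmul_eq_mul]
        push_cast
        rfl
    _ ≤ (n * (ε / 4 * n ^ (5 * r))) * n + n ^ (5 * r) * (n * (ε / 4 * n)) := by
        have := mul_le_mul_of_nonneg_right h1 hn0
        linarith
    _ = _ := by ring

/-- the marginals -/
lemma marginal {q : ℕ} (F : V → ℝ) (t : Fin q) :
    (Fintype.card V : ℝ) * ∑ X : Fin q → V, F (X t) = (Fintype.card V : ℝ) ^ q * ∑ x, F x := by
  classical
  have h1 : ∑ X : Fin q → V, F (X t) =
      ∑ p : V × ({j : Fin q // j ≠ t} → V), F p.1 :=
    Fintype.sum_equiv (Equiv.funSplitAt t V) _ _ (fun X => rfl)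
  rw [h1, Fintype.sum_prod_type]
  simp only [sum_const, card_univ, Fintype.card_fun, nsmul_eq_mul]
  rw [← mul_sum, ← mul_assoc]
  congr 1
  have h2 : Fintype.card {j : Fin q // j ≠ t} = q - 1 := by
    rw [Fintype.card_subtype_compl, Fintype.card_fin]
    simp
  rw [h2]
  push_cast
  rw [mul_comm, ← pow_succ]
  congr 1
  have := t.2
  omega

end Pool.Agent.H24.RM
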