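import Mathlib
import Pool.Agent.H24.RM.Up1

/-!
# The upper bound for the threshold of `C53`: the main counting step
-/

set_option autoImplicit false

namespace Pool.Agent.H24.RM

open Finset

variable {V : Type} [Fintype V] (G : SimpleGraph V)

lemma five_index (i j : Fin 5) (hij : i ≠ j) : ∃ k : Fin 5,
    (k = i + 1 ∨ k = i - 1 ∨ k = j + 1 ∨ k = j - 1) ∧
    (k + 1 = i + 1 ∨ k + 1 = i - 1 ∨ k + 1 = j + 1 ∨ k + 1 = j - 1) := by
  revert i j
  decide

/-- a copy without bad pairs has an edge of which both ends have many common neighbours with a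
sample point -/
lemma good_edge {r : ℕ} {θ : ℝ} (X : Fin (5 * r) → V) (f : Fin 5 → V)
    (hf : ∀ i, G.Adj (f i) (f (i + 1)))
    (h1 : ∀ i, (f i, f (i + 1)) ∉ bad G r θ X) (h2 : ∀ i, (f (i + 1), f i) ∉ bad G r θ X) :
    ∃ t : Fin (5 * r), ∃ k : Fin 5, θ ≤ (cod G (X t) (f k) : ℝ) ∧
      θ ≤ (cod G (X t) (f (k + 1)) : ℝ) := by
  classical
  have hb1 : ∀ i, r < (SX G X (f i)).card ∧ θ ≤ (cnt G X (f i) (f (i + 1)) : ℝ) := by
    intro i
    have h := h1 i
    unfold bad at h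
    rw [mem_filter] at h
    push Not at h
    exact h (mem_univ _) (hf i)
  have hb2 : ∀ i, θ ≤ (cnt G X (f (i + 1)) (f i) : ℝ) := by
    intro i
    have h := h2 i
    unfold bad at h
    rw [mem_filter] at h
    push Not at h
    exact (h (mem_univ _) (hf i).symm).2
  -- pigeonhole
  have hp : ∃ i j : Fin 5, i ≠ j ∧ ∃ t, t ∈ SX G X (f i) ∧ t ∈ SX G X (f j) := by
    by_contra hcon
    push Not at hcon
    have hdis : ∀ i ∈ (univ : Finset (Fin 5)), ∀ j ∈ (univ : Finset (Fin 5)), i ≠ j →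
        Disjoint (SX G X (f i)) (SX G X (f j)) := by
      intro i _ j _ hij
      rw [disjoint_left]
      intro t ht
      exact hcon i j hij t ht
    have e1 := card_biUnion hdis
    have e2 : ((univ : Finset (Fin 5)).biUnion fun i => SX G X (f i)).card ≤ 5 * r := by
      refine (card_le_univ _).trans ?_
      rw [Fintype.card_fin]
    have e3 : ∑ _i : Fin 5, (r + 1) ≤ ∑ i : Fin 5, (SX G X (f i)).card :=
      sum_le_sum fun i _ => (hb1 i).1
    rw [sum_const, card_univ, Fintype.card_fin, smul_eq_mul] at e3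
    omega
  obtain ⟨i, j, hij, t, hti, htj⟩ := hp
  have hcod : ∀ (v w : V), t ∈ SX G X w → (cnt G X v w : ℝ) ≤ (cod G (X t) v : ℝ) := by
    intro v w htw
    rw [Nat.cast_le]
    apply card_le_card
    intro x hx
    rw [mem_filter] at hx ⊢
    refine ⟨mem_univ _, ?_, hx.2.1.symm⟩
    rw [← hx.2.2] at htw
    unfold SX at htw
    rw [mem_filter] at htw
    exact htw.2.symm
  have hP : ∀ i', t ∈ SX G X (f i') → θ ≤ (cod G (X t) (f (i' + 1)) : ℝ) ∧
      θ ≤ (cod G (X t) (f (i' - 1)) : ℝ) := by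
    intro i' hi'
    constructor
    · exact (hb2 i').trans (hcod _ _ hi')
    · have e1 := (hb1 (i' - 1)).2
      rw [sub_add_cancel] at e1
      exact e1.trans (hcod _ _ hi')
  obtain ⟨k, hk1, hk2⟩ := five_index i j hij
  refine ⟨t, k, ?_, ?_⟩
  · rcases hk1 with h | h | h | h <;> rw [h]
    · exact (hP i hti).1
    · exact (hP i hti).2
    · exact (hP j htj).1
    · exact (hP j htj).2
  · rcases hk2 with h | h | h | h <;> rw [h]
    · exact (hP i hti).1
    · exact (hP i hti).2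
    · exact (hP j htj).1
    · exact (hP j htj).2

lemma pointwise [Nonempty V] {r : ℕ} (hr : 0 < r) {θ : ℝ} (hθ : 0 ≤ θ) (X : Fin (5 * r) → V)
    (S : Finset (Fin 5 → V)) (hS : ∀ f ∈ S, ∀ i, G.Adj (f i) (f (i + 1)))
    (hd : ∀ f ∈ S, ∀ g ∈ S, f ≠ g → ∀ i j, s(f i, f (i + 1)) ≠ s(g j, g (j + 1))) :
    ((S.card : ℝ) - (bad G r θ X).card) * θ ^ 2 ≤ ∑ t, WW G (X t) := by
  classical
  have : Nonempty (Fin (5 * r)) := ⟨⟨0, by omega⟩⟩
  set good := S.filter (fun f => ∀ i, (f i, f (i + 1)) ∉ bad G r θ X ∧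
    (f (i + 1), f i) ∉ bad G r θ X) with hgood
  set killed := S.filter (fun f => ¬ ∀ i, (f i, f (i + 1)) ∉ bad G r θ X ∧
    (f (i + 1), f i) ∉ bad G r θ X) with hkilled
  have hsum : good.card + killed.card = S.card := card_filter_add_card_filter_not _
  have hk : ∀ f ∈ killed, ∃ p : V × V, p ∈ bad G r θ X ∧ ∃ i, s(p.1, p.2) = s(f i, f (i + 1)) := by
    intro f hf
    rw [hkilled, mem_filter] at hf
    have h2 := hf.2
    rw [not_forall] at h2
    obtain ⟨i, hi⟩ := h2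
    rw [not_and_or, not_not, not_not] at hi
    rcases hi with hi | hi
    · exact ⟨_, hi, i, rfl⟩
    · exact ⟨_, hi, i, Sym2.eq_swap⟩
  choose! F hF1 hF2 using hk
  have hkc : killed.card ≤ (bad G r θ X).card := by
    apply card_le_card_of_injOn F hF1
    intro f hf g hg hfg
    by_contra hne
    obtain ⟨i, hi⟩ := hF2 f hf
    obtain ⟨j, hj⟩ := hF2 g hg
    have hfS : f ∈ S := (mem_filter.1 hf).1
    have hgS : g ∈ S := (mem_filter.1 hg).1
    apply hd f hfS g hgS hne i j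
    rw [← hi, ← hj, hfg]
  have hg : ∀ f ∈ good, ∃ p : Fin (5 * r) × (V × V), (G.Adj p.2.1 p.2.2 ∧
      θ ≤ (cod G (X p.1) p.2.1 : ℝ) ∧ θ ≤ (cod G (X p.1) p.2.2 : ℝ)) ∧
      ∃ i, s(p.2.1, p.2.2) = s(f i, f (i + 1)) := by
    intro f hf
    rw [hgood, mem_filter] at hf
    obtain ⟨t, k, h1, h2⟩ := good_edge G X f (hS f hf.1) (fun i => (hf.2 i).1)
      (fun i => (hf.2 i).2)
    exact ⟨(t, (f k, f (k + 1))), ⟨hS f hf.1 k, h1, h2⟩, k, rfl⟩
  choose! F' hF1' hF2' using hg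
  have hinj : Set.InjOn F' good := by
    intro f hf g hg hfg
    by_contra hne
    obtain ⟨i, hi⟩ := hF2' f hf
    obtain ⟨j, hj⟩ := hF2' g hg
    have hfS : f ∈ S := (mem_filter.1 hf).1
    have hgS : g ∈ S := (mem_filter.1 hg).1
    apply hd f hfS g hgS hne i j
    rw [← hi, ← hj, hfg]
  set val : Fin (5 * r) × (V × V) → ℝ := fun p =>
    if G.Adj p.2.1 p.2.2 then (cod G (X p.1) p.2.1 : ℝ) * cod G (X p.1) p.2.2 else 0 with hval
  have hval0 : ∀ p, 0 ≤ val p := by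
    intro p
    simp only [hval]
    split_ifs <;> positivity
  have h1 : ∑ t, WW G (X t) = ∑ p, val p := by
    rw [Fintype.sum_prod_type]
    rfl
  have h2 : (good.card : ℝ) * θ ^ 2 ≤ ∑ p, val p := by
    calc (good.card : ℝ) * θ ^ 2 = (good.image F').card • θ ^ 2 := by
          rw [card_image_of_injOn hinj, nsmul_eq_mul]
      _ ≤ ∑ p ∈ good.image F', val p := by
          apply card_nsmul_le_sum
          intro p hp
          rw [mem_image] at hp
          obtain ⟨f, hf, rfl⟩ := hp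
          obtain ⟨e1, e2, e3⟩ := hF1' f hf
          simp only [hval]
          rw [if_pos e1, sq]
          exact mul_le_mul e2 e3 hθ (hθ.trans e2)
      _ ≤ _ := sum_le_univ_sum_of_nonneg hval0
  rw [h1]
  refine le_trans ?_ h2
  apply mul_le_mul_of_nonneg_right _ (by positivity)
  have e1 : (S.card : ℝ) = good.card + killed.card := by exact_mod_cast hsum.symm
  have e2 : (killed.card : ℝ) ≤ (bad G r θ X).card := by exact_mod_cast hkc
  linarith

lemma count_C5 [Nonempty V] {r : ℕ} (hr : 0 < r) {ε : ℝ} (h0 : 0 < ε)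
    (hr2 : (98 / 100 : ℝ) ^ r ≤ ε / 4)
    (hdeg : ∀ v, (6 / 25 : ℝ) * Fintype.card V ≤ (G.neighborSet v).ncard)
    (S : Finset (Fin 5 → V)) (hS : ∀ f ∈ S, ∀ i, G.Adj (f i) (f (i + 1)))
    (hd : ∀ f ∈ S, ∀ g ∈ S, f ≠ g → ∀ i j, s(f i, f (i + 1)) ≠ s(g j, g (j + 1)))
    (hc : ε * (Fintype.card V : ℝ) ^ 2 ≤ S.card) :
    ε ^ 3 / (32 * 16 ^ (5 * r)) * (Fintype.card V : ℝ) ^ 5 ≤ ∑ x, WW G x := by
  set n : ℝ := (Fintype.card V : ℝ) with hn
  have hn0 : 0 < n := by
    rw [hn]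
    exact_mod_cast Fintype.card_pos
  set q : ℕ := 5 * r with hq
  set θ : ℝ := ε / (4 * 2 ^ q) * n with hθ
  have hθ0 : 0 ≤ θ := by positivity
  have h1 := bad_sum G (r := r) (ε := ε) (θ := θ) hθ0 hdeg hr2 (by
    rw [hθ, ← hq, ← hn]
    apply le_of_eq
    field_simp)
  rw [← hq, ← hn] at h1
  have h2 : ∑ X : Fin q → V, (((S.card : ℝ) - (bad G r θ X).card) * θ ^ 2) ≤
      ∑ X : Fin q → V, ∑ t, WW G (X t) :=
    sum_le_sum fun X _ => pointwise G hr hθ0 X S hS hd
  rw [← sum_mul, sum_sub_distrib, sum_const, card_univ, Fintype.card_fun, Fintype.card_fin,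
    nsmul_eq_mul, sum_comm] at h2
  push_cast at h2
  rw [← hn] at h2
  have h3 : n * ∑ t : Fin q, ∑ X : Fin q → V, WW G (X t) = q * (n ^ q * ∑ x, WW G x) := by
    rw [mul_sum, sum_congr rfl (fun t _ => marginal (WW G) t), sum_const, card_univ,
      Fintype.card_fin, nsmul_eq_mul]
  have h4 : ε / 2 * n ^ 2 * n ^ q ≤ n ^ q * S.card -
      ∑ X : Fin q → V, ((bad G r θ X).card : ℝ) := by
    have e1 : n ^ q * (ε * n ^ 2) ≤ n ^ q * S.card := by gcongr
    linarith
  have h5 : n * ((ε / 2 * n ^ 2 * n ^ q) * θ ^ 2) ≤ q * (n ^ q * ∑ x, WW G x) := by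
    rw [← h3]
    apply mul_le_mul_of_nonneg_left _ hn0.le
    refine le_trans ?_ h2
    exact mul_le_mul_of_nonneg_right h4 (by positivity)
  have hW : 0 ≤ ∑ x, WW G x := by
    apply sum_nonneg
    intro x _
    unfold WW
    apply sum_nonneg
    intro p _
    split_ifs <;> positivity
  have h6 : (q : ℝ) ≤ 4 ^ q := by
    have : q < 4 ^ q := Nat.lt_pow_self (by norm_num)
    exact_mod_cast this.le
  have h7 : (ε ^ 3 / (32 * 4 ^ q) * n ^ 5) * n ^ q ≤ (4 ^ q * ∑ x, WW G x) * n ^ q := by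
    calc (ε ^ 3 / (32 * 4 ^ q) * n ^ 5) * n ^ q = n * ((ε / 2 * n ^ 2 * n ^ q) * θ ^ 2) := by
          rw [hθ]
          have : (4 : ℝ) ^ q = (2 ^ q) ^ 2 := by
            rw [show (4 : ℝ) = 2 ^ 2 by norm_num, ← pow_mul, ← pow_mul, mul_comm 2 q]
          rw [this]
          field_simp
          ring
      _ ≤ q * (n ^ q * ∑ x, WW G x) := h5
      _ ≤ 4 ^ q * (n ^ q * ∑ x, WW G x) := by gcongr
      _ = _ := by ring
  have h8 : ε ^ 3 / (32 * 4 ^ q) * n ^ 5 ≤ 4 ^ q * ∑ x, WW G x :=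
    le_of_mul_le_mul_right h7 (by positivity)
  have h9 : 4 ^ q * (ε ^ 3 / (32 * 16 ^ q) * n ^ 5) ≤ 4 ^ q * ∑ x, WW G x := by
    refine le_trans (le_of_eq ?_) h8
    have : (16 : ℝ) ^ q = 4 ^ q * 4 ^ q := by
      rw [← mul_pow]
      norm_num
    rw [this]
    field_simp
  exact le_of_mul_le_mul_left h9 (by positivity)

end Pool.Agent.H24.RM
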