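import Mathlib
import Pool.Agent.H24.RM.Up2

/-!
# The upper bound for the threshold of `C53`: blow-up
-/

set_option autoImplicit false

namespace Pool.Agent.H24.RM

open Finset

lemma power_mean {R : Type} [Fintype R] (f : R → ℝ) (h : ∀ r, 0 ≤ f r) :
    (∑ r, f r) ^ 3 ≤ (Fintype.card R : ℝ) ^ 2 * ∑ r, f r ^ 3 := by
  rcases isEmpty_or_nonempty R with hR | hR
  · simp
  · have h1 := pow_sum_div_card_le_sum_pow (s := (univ : Finset R)) (f := f) (fun r _ => h r) 2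
    rw [card_univ] at h1
    have h2 : (0 : ℝ) < (Fintype.card R : ℝ) ^ 2 := by
      have : (0 : ℝ) < Fintype.card R := by exact_mod_cast Fintype.card_pos
      positivity
    rw [div_le_iff₀ h2] at h1
    rw [mul_comm]
    exact h1

/-- one step of the blow-up -/
lemma step {A B C D E : Type} [Fintype A] [Fintype B] [Fintype C] [Fintype D] [Fintype E]
    (φ : A → B → C → D → E → ℝ) (h : ∀ a b c d e, 0 ≤ φ a b c d e) :
    (∑ a, ∑ b, ∑ c, ∑ d, ∑ e, φ a b c d e) ^ 3 ≤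
      ((Fintype.card B : ℝ) * (Fintype.card C * (Fintype.card D * Fintype.card E))) ^ 2 *
      ∑ b, ∑ c, ∑ d, ∑ e, ∑ g : Fin 3 → A, ∏ j, φ (g j) b c d e := by
  have h1 := power_mean (R := B × C × D × E)
    (fun p => ∑ a, φ a p.1 p.2.1 p.2.2.1 p.2.2.2) (fun p => sum_nonneg fun a _ => h _ _ _ _ _)
  have e1 : ∑ p : B × C × D × E, ∑ a, φ a p.1 p.2.1 p.2.2.1 p.2.2.2 =
      ∑ a, ∑ b, ∑ c, ∑ d, ∑ e, φ a b c d e := by
    rw [sum_comm]
    simp_rw [Fintype.sum_prod_type]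
  have e2 : ∑ p : B × C × D × E, (∑ a, φ a p.1 p.2.1 p.2.2.1 p.2.2.2) ^ 3 =
      ∑ b, ∑ c, ∑ d, ∑ e, ∑ g : Fin 3 → A, ∏ j, φ (g j) b c d e := by
    simp_rw [Fintype.sum_pow, Fintype.sum_prod_type]
  rw [e1, e2, Fintype.card_prod, Fintype.card_prod, Fintype.card_prod] at h1
  push_cast at h1
  exact h1

lemma norm_step {n β x y : ℝ} {a b c : ℕ} (hn : 0 < n) (hβ : 0 ≤ β) (h : x ^ 3 ≤ (n ^ a) ^ 2 * y)
    (hx : β * n ^ b ≤ x) (habc : 3 * b = 2 * a + c) : β ^ 3 * n ^ c ≤ y := by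
  have h1 : (β * n ^ b) ^ 3 ≤ x ^ 3 := pow_le_pow_left₀ (by positivity) hx 3
  have h2 : (n ^ a) ^ 2 * (β ^ 3 * n ^ c) ≤ (n ^ a) ^ 2 * y := by
    refine le_trans (le_of_eq ?_) (h1.trans h)
    have : n ^ (3 * b) = n ^ (2 * a + c) := by rw [habc]
    rw [pow_add, mul_comm 3 b, mul_comm 2 a, pow_mul, pow_mul] at this
    rw [mul_pow, this]
    ring
  exact le_of_mul_le_mul_left h2 (by positivity)

variable {V : Type} [Fintype V] (G : SimpleGraph V)

open Classical in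
/-- the indicator of adjacency -/
noncomputable def ind (u v : V) : ℝ := if G.Adj u v then 1 else 0

omit [Fintype V] in
lemma ind_nonneg (u v : V) : 0 ≤ ind G u v := by
  unfold ind
  split_ifs <;> norm_num

omit [Fintype V] in
lemma ind_le (u v : V) : ind G u v ≤ 1 := by
  unfold ind
  split_ifs <;> norm_num

omit [Fintype V] in
lemma adj_of_ind {u v : V} (h : ind G u v ≠ 0) : G.Adj u v := by
  unfold ind at h
  by_contra h1
  rw [if_neg h1] at h
  exact h rfl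

/-- the closed walks -/
noncomputable def phi5 (x b c y z : V) : ℝ :=
  ind G b c * (ind G x y * ind G y b) * (ind G x z * ind G z c)

omit [Fintype V] in
lemma phi5_nonneg (x b c y z : V) : 0 ≤ phi5 G x b c y z := by
  unfold phi5
  have := ind_nonneg G
  exact mul_nonneg (mul_nonneg (this _ _) (mul_nonneg (this _ _) (this _ _)))
    (mul_nonneg (this _ _) (this _ _))

omit [Fintype V] in
lemma phi5_le (x b c y z : V) : phi5 G x b c y z ≤ 1 := by
  unfold phi5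
  have h0 := ind_nonneg G
  have h1 := ind_le G
  apply mul_le_one₀
  · apply mul_le_one₀ (h1 _ _) (mul_nonneg (h0 _ _) (h0 _ _))
    exact mul_le_one₀ (h1 _ _) (h0 _ _) (h1 _ _)
  · exact mul_nonneg (h0 _ _) (h0 _ _)
  · exact mul_le_one₀ (h1 _ _) (h0 _ _) (h1 _ _)

omit [Fintype V] in
lemma phi5_adj {x b c y z : V} (h : phi5 G x b c y z ≠ 0) :
    G.Adj x y ∧ G.Adj y b ∧ G.Adj b c ∧ G.Adj c z ∧ G.Adj z x := by
  unfold phi5 at h
  simp only [mul_ne_zero_iff] at h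
  obtain ⟨⟨h1, h2, h3⟩, h4, h5⟩ := h
  exact ⟨adj_of_ind G h2, adj_of_ind G h3, adj_of_ind G h1, (adj_of_ind G h5).symm,
    (adj_of_ind G h4).symm⟩

lemma sum_WW : ∑ x, WW G x = ∑ x, ∑ b, ∑ c, ∑ y, ∑ z, phi5 G x b c y z := by
  classical
  apply sum_congr rfl
  intro x _
  unfold WW
  rw [Fintype.sum_prod_type]
  apply sum_congr rfl
  intro b _
  apply sum_congr rfl
  intro c _
  have hcod : ∀ u v : V, (cod G u v : ℝ) = ∑ y, ind G u y * ind G y v := by
    intro u v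
    unfold cod ind
    rw [card_filter]
    push_cast
    apply sum_congr rfl
    intro y _
    by_cases h1 : G.Adj u y <;> by_cases h2 : G.Adj y v <;> simp [h1, h2]
  have h1 : (if G.Adj b c then (cod G x b : ℝ) * cod G x c else 0) =
      ind G b c * (cod G x b * cod G x c) := by
    unfold ind
    split_ifs <;> simp
  simp only at h1 ⊢
  rw [h1, hcod, hcod, sum_mul_sum, mul_sum]
  apply sum_congr rfl
  intro y _
  rw [mul_sum]
  apply sum_congr rfl
  intro z _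
  unfold phi5
  ring

/-- the homomorphisms of `C53` -/
def Homs : Set (Fin 5 × Fin 3 → V) := {f | ∀ p q, C53.Adj p q → G.Adj (f p) (f q)}

/-- the tuple as a function -/
def asm (p : (Fin 3 → V) × (Fin 3 → V) × (Fin 3 → V) × (Fin 3 → V) × (Fin 3 → V))
    (x : Fin 5 × Fin 3) : V :=
  (![p.1, p.2.2.2.1, p.2.1, p.2.2.1, p.2.2.2.2] x.1) x.2

omit [Fintype V] in
lemma asm_inj : Function.Injective (asm (V := V)) := by
  intro p q h
  have h1 : ∀ i j, asm p (i, j) = asm q (i, j) := fun i j => congrFun h (i, j)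
  obtain ⟨p0, p1, p2, p3, p4⟩ := p
  obtain ⟨q0, q1, q2, q3, q4⟩ := q
  have e0 : p0 = q0 := funext fun j => h1 0 j
  have e3 : p3 = q3 := funext fun j => h1 1 j
  have e1 : p1 = q1 := funext fun j => h1 2 j
  have e2 : p2 = q2 := funext fun j => h1 3 j
  have e4 : p4 = q4 := funext fun j => h1 4 j
  rw [e0, e1, e2, e3, e4]

open Classical in
lemma sum_tuples :
    ∑ g0 : Fin 3 → V, ∑ g1 : Fin 3 → V, ∑ g2 : Fin 3 → V, ∑ g3 : Fin 3 → V, ∑ g4 : Fin 3 → V,
      (∏ j4, ∏ j3, ∏ j2, ∏ j1, ∏ j0, phi5 G (g0 j0) (g1 j1) (g2 j2) (g3 j3) (g4 j4)) ≤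
      ((Homs G).ncard : ℝ) := by
  set T : Finset ((Fin 3 → V) × (Fin 3 → V) × (Fin 3 → V) × (Fin 3 → V) × (Fin 3 → V)) :=
    univ.filter (fun p => asm p ∈ Homs G) with hT
  have h1 : T.card ≤ (Homs G).ncard := by
    rw [← Set.ncard_coe_finset]
    apply Set.ncard_le_ncard_of_injOn asm
    · intro p hp
      rw [mem_coe, hT, mem_filter] at hp
      exact hp.2
    · exact asm_inj.injOn
  have h2 : ∀ p : (Fin 3 → V) × (Fin 3 → V) × (Fin 3 → V) × (Fin 3 → V) × (Fin 3 → V),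
      (∏ j4, ∏ j3, ∏ j2, ∏ j1, ∏ j0,
        phi5 G (p.1 j0) (p.2.1 j1) (p.2.2.1 j2) (p.2.2.2.1 j3) (p.2.2.2.2 j4)) ≤
      if asm p ∈ Homs G then (1 : ℝ) else 0 := by
    intro p
    have hle : (∏ j4, ∏ j3, ∏ j2, ∏ j1, ∏ j0,
        phi5 G (p.1 j0) (p.2.1 j1) (p.2.2.1 j2) (p.2.2.2.1 j3) (p.2.2.2.2 j4)) ≤ 1 := by
      refine prod_le_one (fun _ _ => ?_) (fun _ _ => ?_)
      · exact prod_nonneg fun _ _ => prod_nonneg fun _ _ => prod_nonneg fun _ _ =>
          prod_nonneg fun _ _ => phi5_nonneg G _ _ _ _ _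
      refine prod_le_one (fun _ _ => ?_) (fun _ _ => ?_)
      · exact prod_nonneg fun _ _ => prod_nonneg fun _ _ =>
          prod_nonneg fun _ _ => phi5_nonneg G _ _ _ _ _
      refine prod_le_one (fun _ _ => ?_) (fun _ _ => ?_)
      · exact prod_nonneg fun _ _ => prod_nonneg fun _ _ => phi5_nonneg G _ _ _ _ _
      refine prod_le_one (fun _ _ => ?_) (fun _ _ => ?_)
      · exact prod_nonneg fun _ _ => phi5_nonneg G _ _ _ _ _
      exact prod_le_one (fun _ _ => phi5_nonneg G _ _ _ _ _) (fun _ _ => phi5_le G _ _ _ _ _)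
    split_ifs with hp
    · exact hle
    · by_contra hcon
      push Not at hcon
      apply hp
      have hne := hcon.ne'
      simp only [prod_ne_zero_iff, mem_univ, forall_const] at hne
      have hadj : ∀ j0 j1 j2 j3 j4, G.Adj (p.1 j0) (p.2.2.2.1 j3) ∧
          G.Adj (p.2.2.2.1 j3) (p.2.1 j1) ∧ G.Adj (p.2.1 j1) (p.2.2.1 j2) ∧
          G.Adj (p.2.2.1 j2) (p.2.2.2.2 j4) ∧ G.Adj (p.2.2.2.2 j4) (p.1 j0) :=
        fun j0 j1 j2 j3 j4 => phi5_adj G (hne j4 j3 j2 j1 j0)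
      have hcyc : ∀ (i : Fin 5) (j j' : Fin 3), G.Adj (asm p (i, j)) (asm p (i + 1, j')) := by
        intro i j j'
        fin_cases i
        · exact (hadj j 0 0 j' 0).1
        · exact (hadj 0 j' 0 j 0).2.1
        · exact (hadj 0 j j' 0 0).2.2.1
        · exact (hadj 0 0 j 0 j').2.2.2.1
        · exact (hadj j' 0 0 0 j).2.2.2.2
      intro u v huv
      obtain ⟨i, j⟩ := u
      obtain ⟨i', j'⟩ := v
      rcases huv with h | h
      · simp only at h
        subst h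
        exact hcyc i j j'
      · simp only at h
        subst h
        exact (hcyc i' j' j).symm
  calc _ = ∑ p : (Fin 3 → V) × (Fin 3 → V) × (Fin 3 → V) × (Fin 3 → V) × (Fin 3 → V),
      (∏ j4, ∏ j3, ∏ j2, ∏ j1, ∏ j0,
        phi5 G (p.1 j0) (p.2.1 j1) (p.2.2.1 j2) (p.2.2.2.1 j3) (p.2.2.2.2 j4)) := by
        simp_rw [Fintype.sum_prod_type]
    _ ≤ ∑ p, if asm p ∈ Homs G then (1 : ℝ) else 0 := sum_le_sum fun p _ => h2 p
    _ = T.card := by
        rw [hT, card_filter]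
        push_cast
        rfl
    _ ≤ _ := by exact_mod_cast h1

lemma blow_up [Nonempty V] {β : ℝ} (hβ : 0 ≤ β) (h : β * (Fintype.card V : ℝ) ^ 5 ≤ ∑ x, WW G x) :
    β ^ 243 * (Fintype.card V : ℝ) ^ 15 ≤ ((Homs G).ncard : ℝ) := by
  set n : ℝ := (Fintype.card V : ℝ) with hn
  have hn0 : 0 < n := by
    rw [hn]
    exact_mod_cast Fintype.card_pos
  rw [sum_WW] at h
  have hc3 : (Fintype.card (Fin 3 → V) : ℝ) = n ^ 3 := by
    rw [Fintype.card_fun, Fintype.card_fin]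
    push_cast
    rfl
  have s1 := step (phi5 G) (phi5_nonneg G)
  have s2 := step (fun b c y z (g0 : Fin 3 → V) => ∏ j0, phi5 G (g0 j0) b c y z)
    (fun _ _ _ _ _ => prod_nonneg fun _ _ => phi5_nonneg G _ _ _ _ _)
  have s3 := step (fun c y z (g0 : Fin 3 → V) (g1 : Fin 3 → V) =>
      ∏ j1, ∏ j0, phi5 G (g0 j0) (g1 j1) c y z)
    (fun _ _ _ _ _ => prod_nonneg fun _ _ => prod_nonneg fun _ _ => phi5_nonneg G _ _ _ _ _)
  have s4 := step (fun y z (g0 : Fin 3 → V) (g1 : Fin 3 → V) (g2 : Fin 3 → V) =>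
      ∏ j2, ∏ j1, ∏ j0, phi5 G (g0 j0) (g1 j1) (g2 j2) y z)
    (fun _ _ _ _ _ => prod_nonneg fun _ _ => prod_nonneg fun _ _ => prod_nonneg fun _ _ =>
      phi5_nonneg G _ _ _ _ _)
  have s5 := step (fun z (g0 : Fin 3 → V) (g1 : Fin 3 → V) (g2 : Fin 3 → V) (g3 : Fin 3 → V) =>
      ∏ j3, ∏ j2, ∏ j1, ∏ j0, phi5 G (g0 j0) (g1 j1) (g2 j2) (g3 j3) z)
    (fun _ _ _ _ _ => prod_nonneg fun _ _ => prod_nonneg fun _ _ => prod_nonneg fun _ _ =>
      prod_nonneg fun _ _ => phi5_nonneg G _ _ _ _ _)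
  rw [hc3, ← hn] at s2 s3 s4
  rw [← hn] at s1
  rw [hc3] at s5
  rw [show n * (n * (n * n)) = n ^ 4 by ring] at s1
  rw [show n * (n * (n * n ^ 3)) = n ^ 6 by ring] at s2
  rw [show n * (n * (n ^ 3 * n ^ 3)) = n ^ 8 by ring] at s3
  rw [show n * (n ^ 3 * (n ^ 3 * n ^ 3)) = n ^ 10 by ring] at s4
  rw [show n ^ 3 * (n ^ 3 * (n ^ 3 * n ^ 3)) = n ^ 12 by ring] at s5
  have t1 := norm_step (c := 7) hn0 hβ s1 h (by norm_num)
  have t2 := norm_step (c := 9) hn0 (by positivity) s2 t1 (by norm_num)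
  have t3 := norm_step (c := 11) hn0 (by positivity) s3 t2 (by norm_num)
  have t4 := norm_step (c := 13) hn0 (by positivity) s4 t3 (by norm_num)
  have t5 := norm_step (c := 15) hn0 (by positivity) s5 t4 (by norm_num)
  refine le_trans ?_ (t5.trans (sum_tuples G))
  apply le_of_eq
  rw [← pow_mul, ← pow_mul, ← pow_mul, ← pow_mul]

end Pool.Agent.H24.RM
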