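import Mathlib
import Pool.Agent.H24.RM.Up3

/-!
# The upper bound for the threshold of `C53`: assembly
-/

set_option autoImplicit false

namespace Pool.Agent.H24.RM

open Finset

variable {V : Type} [Fintype V] (G : SimpleGraph V)

lemma card_eq_pair {α : Type} [Fintype α] [DecidableEq α] [DecidableEq V] (a b : α)
    (hab : a ≠ b) :
    (univ.filter (fun f : α → V => f a = f b)).card ≤ Fintype.card V ^ (Fintype.card α - 1) := by
  have h1 : Fintype.card ({x : α // x ≠ a} → V) = Fintype.card V ^ (Fintype.card α - 1) := by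
    rw [Fintype.card_fun, Fintype.card_subtype_compl]
    simp
  rw [← h1, ← card_univ]
  apply card_le_card_of_injOn (fun f x => f x.1)
  · intro f _
    exact mem_coe.2 (mem_univ _)
  · intro f hf g hg hfg
    rw [mem_coe, mem_filter] at hf hg
    have h2 : ∀ x, x ≠ a → f x = g x := fun x hx => congrFun hfg ⟨x, hx⟩
    funext x
    by_cases hx : x = a
    · rw [hx, hf.2, hg.2]
      exact h2 b hab.symm
    · exact h2 x hx

lemma homs_le : ((Homs G).ncard : ℝ) ≤
    ({f : Fin 5 × Fin 3 → V | IsCopy C53 G f}.ncard : ℝ) + 225 * (Fintype.card V : ℝ) ^ 14 := by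
  classical
  set N : Finset (Fin 5 × Fin 3 → V) := univ.filter (fun f => ¬ Function.Injective f) with hN
  have h1 : N ⊆ ((univ : Finset ((Fin 5 × Fin 3) × (Fin 5 × Fin 3))).filter
      (fun p => p.1 ≠ p.2)).biUnion (fun p => univ.filter (fun f => f p.1 = f p.2)) := by
    intro f hf
    rw [hN, mem_filter] at hf
    have h2 := hf.2
    unfold Function.Injective at h2
    push Not at h2
    obtain ⟨a, b, h3, h4⟩ := h2
    rw [mem_biUnion]
    exact ⟨(a, b), mem_filter.2 ⟨mem_univ _, h4⟩, mem_filter.2 ⟨mem_univ _, h3⟩⟩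
  have h2 : N.card ≤ 225 * Fintype.card V ^ 14 := by
    calc N.card ≤ _ := card_le_card h1
      _ ≤ ∑ p ∈ ((univ : Finset ((Fin 5 × Fin 3) × (Fin 5 × Fin 3))).filter
          (fun p => p.1 ≠ p.2)), (univ.filter (fun f : Fin 5 × Fin 3 → V => f p.1 = f p.2)).card :=
          card_biUnion_le
      _ ≤ ∑ p ∈ ((univ : Finset ((Fin 5 × Fin 3) × (Fin 5 × Fin 3))).filter
          (fun p => p.1 ≠ p.2)), Fintype.card V ^ 14 := by
          apply sum_le_sum
          intro p hp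
          rw [mem_filter] at hp
          have e1 := card_eq_pair (V := V) p.1 p.2 hp.2
          have e2 : Fintype.card (Fin 5 × Fin 3) - 1 = 14 := by simp
          rw [e2] at e1
          exact e1
      _ = ((univ : Finset ((Fin 5 × Fin 3) × (Fin 5 × Fin 3))).filter
          (fun p => p.1 ≠ p.2)).card * Fintype.card V ^ 14 := by
          rw [sum_const, smul_eq_mul]
      _ ≤ 225 * Fintype.card V ^ 14 := by
          apply Nat.mul_le_mul_right
          refine (card_le_univ _).trans ?_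
          simp
  have h3 : Homs G ⊆ {f : Fin 5 × Fin 3 → V | IsCopy C53 G f} ∪ (N : Set _) := by
    intro f hf
    by_cases hinj : Function.Injective f
    · exact Or.inl ⟨hinj, hf⟩
    · right
      rw [mem_coe, hN, mem_filter]
      exact ⟨mem_univ _, hinj⟩
  have h4 : (Homs G).ncard ≤ {f : Fin 5 × Fin 3 → V | IsCopy C53 G f}.ncard + N.card := by
    calc (Homs G).ncard ≤ _ := Set.ncard_le_ncard h3 (Set.toFinite _)
      _ ≤ _ := Set.ncard_union_le _ _
      _ = _ := by rw [Set.ncard_coe_finset]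
  have h5 : (Homs G).ncard ≤
      {f : Fin 5 × Fin 3 → V | IsCopy C53 G f}.ncard + 225 * Fintype.card V ^ 14 := by omega
  exact_mod_cast h5

lemma copies_ge {η n x : ℝ} (h0 : 0 < η) (h1 : η ≤ 1) (hn : 0 < n)
    (hx : η * n ^ 15 ≤ x + 225 * n ^ 14) (hx1 : 1 ≤ x) : (η / 450) ^ 15 * n ^ 15 ≤ x := by
  rcases le_or_gt 450 (η * n) with h | h
  · have e1 : 450 * n ^ 14 ≤ η * n ^ 15 := by
      calc 450 * n ^ 14 ≤ (η * n) * n ^ 14 := mul_le_mul_of_nonneg_right h (by positivity)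
        _ = _ := by ring
    have e2 : (η / 450) ^ 15 ≤ η / 450 := by
      have : (η / 450) ^ 15 ≤ (η / 450) ^ 1 :=
        pow_le_pow_of_le_one (by positivity) (by linarith) (by norm_num)
      rwa [pow_one] at this
    have e3 : (η / 450) ^ 15 * n ^ 15 ≤ η / 450 * n ^ 15 :=
      mul_le_mul_of_nonneg_right e2 (by positivity)
    have e4 : 0 ≤ η * n ^ 15 := by positivity
    linarith
  · rw [← mul_pow]
    refine le_trans (pow_le_one₀ (by positivity) ?_) hx1
    linarith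

lemma exists_r {ε : ℝ} (h0 : 0 < ε) (h1 : ε ≤ 1) :
    ∃ r : ℕ, 0 < r ∧ (98 / 100 : ℝ) ^ r ≤ ε / 4 ∧ (16 : ℝ) ^ (5 * r) ≤ (5 / ε) ^ 700 := by
  classical
  have hex : ∃ r : ℕ, (98 / 100 : ℝ) ^ r ≤ ε / 4 := by
    obtain ⟨r, hr⟩ := exists_pow_lt_of_lt_one (show 0 < ε / 4 by positivity)
      (show (98 / 100 : ℝ) < 1 by norm_num)
    exact ⟨r, hr.le⟩
  set r := Nat.find hex with hr
  have hr1 : (98 / 100 : ℝ) ^ r ≤ ε / 4 := Nat.find_spec hex
  have hr0 : 0 < r := by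
    rcases Nat.eq_zero_or_pos r with h | h
    · rw [h, pow_zero] at hr1
      linarith
    · exact h
  have hr2 : ε / 4 < (98 / 100 : ℝ) ^ (r - 1) := by
    have := Nat.find_min hex (show r - 1 < r by omega)
    push Not at this
    exact this
  have hr3 : ε / 5 ≤ (98 / 100 : ℝ) ^ r := by
    have e1 : (98 / 100 : ℝ) ^ r = (98 / 100) ^ (r - 1) * (98 / 100) := by
      rw [← pow_succ]
      congr 1
      omega
    rw [e1]
    linarith
  refine ⟨r, hr0, hr1, ?_⟩
  have e1 : (2 * (98 / 100 : ℝ) ^ 35) ≤ 1 := by norm_num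
  have e2 : (16 : ℝ) ^ (5 * r) * (ε / 5) ^ 700 ≤ 1 := by
    calc (16 : ℝ) ^ (5 * r) * (ε / 5) ^ 700 ≤ (16 : ℝ) ^ (5 * r) * ((98 / 100 : ℝ) ^ r) ^ 700 := by
          gcongr
      _ = (2 * (98 / 100 : ℝ) ^ 35) ^ (20 * r) := by
          rw [mul_pow, ← pow_mul, ← pow_mul, show (16 : ℝ) = 2 ^ 4 by norm_num, ← pow_mul]
          congr 2 <;> ring
      _ ≤ 1 := pow_le_one₀ (by positivity) e1
  have e3 : (0 : ℝ) < (ε / 5) ^ 700 := by positivity
  have e4 : (5 / ε) ^ 700 = 1 / (ε / 5) ^ 700 := by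
    rw [← one_div_pow, one_div_div]
  rw [e4, le_div_iff₀ e3]
  exact e2

lemma removal_C53 {ε : ℝ} (h0 : 0 < ε) (h1 : ε ≤ 1) {r : ℕ} (hr : 0 < r)
    (hr2 : (98 / 100 : ℝ) ^ r ≤ ε / 4) :
    Removal C53 (6 / 25) ε (((ε ^ 3 / (32 * 16 ^ (5 * r))) ^ 243 / 450) ^ 15) := by
  classical
  intro V _ G hdeg ⟨S, hS, hdisj, hc⟩
  have hW : Fintype.card (Fin 5 × Fin 3) = 15 := by simp
  rw [hW]
  rcases isEmpty_or_nonempty V with hV | hV
  · have : Fintype.card V = 0 := Fintype.card_eq_zero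
    rw [this, Nat.cast_zero, zero_pow (by norm_num), mul_zero]
    positivity
  have hn0 : (0 : ℝ) < (Fintype.card V : ℝ) := by exact_mod_cast Fintype.card_pos
  set res : (Fin 5 × Fin 3 → V) → Fin 5 → V := fun f i => f (i, 0) with hres
  have hadj : ∀ i : Fin 5, C53.Adj (i, 0) (i + 1, 0) := fun i => Or.inl rfl
  have hdd : ∀ f ∈ S, ∀ g ∈ S, f ≠ g → ∀ i j, s(res f i, res f (i + 1)) ≠
      s(res g j, res g (j + 1)) := by
    intro f hf g hg hfg i j
    exact hdisj f hf g hg hfg _ _ _ _ (hadj i) (hadj j)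
  have hinj : Set.InjOn res S := by
    intro f hf g hg hfg
    by_contra hne
    apply hdd f hf g hg hne 0 0
    rw [hfg]
  have hcount := count_C5 G hr h0 hr2 hdeg (S.image res)
    (by
      intro f' hf' i
      rw [mem_image] at hf'
      obtain ⟨f, hf, rfl⟩ := hf'
      exact (hS f hf).2 _ _ (hadj i))
    (by
      intro f' hf' g' hg' hne i j
      rw [mem_image] at hf' hg'
      obtain ⟨f, hf, rfl⟩ := hf'
      obtain ⟨g, hg, rfl⟩ := hg'
      apply hdd f hf g hg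
      rintro rfl
      exact hne rfl)
    (by
      rw [card_image_of_injOn hinj]
      exact hc)
  set β : ℝ := ε ^ 3 / (32 * 16 ^ (5 * r)) with hβ
  have hβ0 : 0 < β := by positivity
  have hβ1 : β ≤ 1 := by
    rw [hβ, div_le_one (by positivity)]
    have e1 : ε ^ 3 ≤ 1 := pow_le_one₀ h0.le h1
    have e2 : (1 : ℝ) ≤ 16 ^ (5 * r) := one_le_pow₀ (by norm_num)
    linarith
  have hb := blow_up G hβ0.le hcount
  have hS1 : 1 ≤ {f : Fin 5 × Fin 3 → V | IsCopy C53 G f}.ncard := by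
    have e1 : 0 < S.card := by
      have : (0 : ℝ) < S.card := lt_of_lt_of_le (by positivity) hc
      exact_mod_cast this
    rw [card_pos] at e1
    obtain ⟨f, hf⟩ := e1
    rw [Nat.succ_le_iff, Set.ncard_pos (Set.toFinite _)]
    exact ⟨f, hS f hf⟩
  exact copies_ge (by positivity) (pow_le_one₀ hβ0.le hβ1) hn0 (hb.trans (homs_le G))
    (by exact_mod_cast hS1)

lemma exists_lower : ∃ c : ℝ, 0 < c ∧ ∃ K : ℕ, ∀ ε : ℝ, 0 < ε → ε ≤ 1 →
    c * ε ^ K ≤ delta C53 (6 / 25) ε := by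
  obtain ⟨c1, hc1, hc⟩ : ∃ c1 : ℝ, 0 < c1 ∧ ∀ ε : ℝ, 0 < ε → ε ≤ 1 → ∀ r : ℕ,
      (16 : ℝ) ^ (5 * r) ≤ (5 / ε) ^ 700 → c1 * ε ^ 703 ≤ ε ^ 3 / (32 * 16 ^ (5 * r)) := by
    refine ⟨1 / (32 * 5 ^ 700), by positivity, ?_⟩
    intro ε h0 _ r hr
    rw [le_div_iff₀ (by positivity)]
    calc 1 / (32 * 5 ^ 700) * ε ^ 703 * (32 * 16 ^ (5 * r))
        ≤ 1 / (32 * 5 ^ 700) * ε ^ 703 * (32 * (5 / ε) ^ 700) := by gcongr
      _ = ε ^ 3 := by
        rw [div_pow, show (703 : ℕ) = 3 + 700 by norm_num, pow_add]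
        have e1 : (5 : ℝ) ^ 700 ≠ 0 := by positivity
        have e2 : ε ^ 700 ≠ 0 := by positivity
        generalize (5 : ℝ) ^ 700 = u at e1 ⊢
        generalize ε ^ 700 = w at e2 ⊢
        field_simp
  refine ⟨(c1 ^ 243 / 450) ^ 15, by positivity, 703 * (243 * 15), fun ε h0 h1 => ?_⟩
  obtain ⟨r, hr0, hr1, hr2⟩ := exists_r h0 h1
  have h2 := hc ε h0 h1 r hr2
  set β : ℝ := ε ^ 3 / (32 * 16 ^ (5 * r)) with hβ
  have hβ0 : 0 < β := by positivity
  have hβ1 : β ≤ 1 := by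
    rw [hβ, div_le_one (by positivity)]
    have e1 : ε ^ 3 ≤ 1 := pow_le_one₀ h0.le h1
    have e2 : (1 : ℝ) ≤ 16 ^ (5 * r) := one_le_pow₀ (by norm_num)
    linarith
  have h3 : ((β ^ 243 / 450) ^ 15) ≤ delta C53 (6 / 25) ε := by
    apply le_delta C53 (by positivity) _ (removal_C53 h0 h1 hr0 hr1)
    have e1 : β ^ 243 ≤ 1 := pow_le_one₀ hβ0.le hβ1
    exact pow_le_one₀ (by positivity) (by linarith)
  refine le_trans ?_ h3
  calc (c1 ^ 243 / 450) ^ 15 * ε ^ (703 * (243 * 15)) = ((c1 * ε ^ 703) ^ 243 / 450) ^ 15 := by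
        rw [mul_pow c1, div_pow, div_pow, mul_pow, ← pow_mul, ← pow_mul, ← pow_mul ε, ← mul_assoc]
        ring
    _ ≤ _ := by gcongr

theorem up : polyThreshold C53 ≤ 6 / 25 := by
  apply csInf_le (poly_bddBelow C53)
  obtain ⟨c, hc, K, h⟩ := exists_lower
  refine ⟨by norm_num, by norm_num, min c (1 / (K + 1)), by positivity, fun ε h0 h1 => ?_⟩
  refine le_trans ?_ (h ε h0 h1)
  have hμ : 0 < min c (1 / ((K : ℝ) + 1)) := by positivity
  have e1 : ε ^ (1 / min c (1 / ((K : ℝ) + 1))) ≤ ε ^ K := by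
    rw [← Real.rpow_natCast]
    apply Real.rpow_le_rpow_of_exponent_ge h0 h1
    rw [le_div_iff₀ hμ]
    have e2 : min c (1 / ((K : ℝ) + 1)) ≤ 1 / (K + 1) := min_le_right _ _
    have e3 : (0 : ℝ) ≤ K := Nat.cast_nonneg _
    calc (K : ℝ) * min c (1 / ((K : ℝ) + 1)) ≤ K * (1 / (K + 1)) := by gcongr
      _ = K / (K + 1) := by ring
      _ ≤ 1 := by
        rw [div_le_one (by positivity)]
        linarith
  exact mul_le_mul (min_le_left _ _) e1 (by positivity) hc.le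

end Pool.Agent.H24.RM
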